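import Pool.Agent.Helper69.DF.Pairing

set_option autoImplicit false

namespace Pool.Agent.Helper69.DF

open Module Module.End Polynomial

section abstractGroup

variable {W : Type*} [AddCommGroup W] [Module ℂ W] [FiniteDimensional ℂ W]
variable {A : Type*} [Group A] (Φ : A →* (Module.End ℂ W)ˣ) {l : ℂ → ℝ}

noncomputable def BG (l : ℂ → ℝ) (s t : A) : ℝ :=
  BB l (Φ s : Module.End ℂ W) (Φ t : Module.End ℂ W)

lemma BG_symm (s t : A) : BG Φ l s t = BG Φ l t s := BB_symm _ _ _

omit [FiniteDimensional ℂ W] in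
lemma comm_of {s t : A} (h : Commute s t) :
    Commute (Φ s : Module.End ℂ W) (Φ t : Module.End ℂ W) := by
  have := h.map Φ
  exact this.units_val

lemma BG_mul (hl : IsLog l) {s t u : A} (h : Commute s t) (h' : Commute s u) :
    BG Φ l s (t * u) = BG Φ l s t + BG Φ l s u := by
  unfold BG
  rw [map_mul, Units.val_mul]
  exact BB_mul hl (comm_of Φ h) (comm_of Φ h') (Units.isUnit _) (Units.isUnit _)

lemma BG_one (hl : IsLog l) (s : A) : BG Φ l s 1 = 0 := by
  have := BG_mul Φ hl (Commute.one_right s) (Commute.one_right s)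
  rw [mul_one] at this
  linarith

lemma BG_inv (hl : IsLog l) {s t : A} (h : Commute s t) :
    BG Φ l s t⁻¹ = - BG Φ l s t := by
  have := BG_mul Φ hl h h.inv_right
  rw [mul_inv_cancel, BG_one Φ hl] at this
  linarith

lemma BG_conj (s t g : A) : BG Φ l (g * s * g⁻¹) (g * t * g⁻¹) = BG Φ l s t := by
  unfold BG
  have key : ∀ u : A, ((Φ (g * u * g⁻¹) : (Module.End ℂ W)ˣ) : Module.End ℂ W) =
      (LinearMap.GeneralLinearGroup.toLinearEquiv (Φ g)).conj (Φ u : Module.End ℂ W) := by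
    intro u
    rw [map_mul, map_mul, map_inv, Units.val_mul, Units.val_mul]
    rfl
  rw [key, key, BB_conj]

lemma BG_zero {s : A} (h : BG Φ l s s = 0) (t : A) : BG Φ l s t = 0 :=
  BB_eq_zero_of_self _ _ h

lemma BG_half (hl : IsLog l) {I s t : A} (h : Commute I s) (ht : t * s * t⁻¹ = I⁻¹ * s) :
    BG Φ l I s = BG Φ l I I / 2 := by
  have h1 : BG Φ l (I⁻¹ * s) (I⁻¹ * s) = BG Φ l s s := by
    rw [← ht]
    exact BG_conj Φ s s t
  have hI : Commute I I := Commute.refl I
  have e1 : BG Φ l (I⁻¹ * s) (I⁻¹ * s) = BG Φ l I⁻¹ (I⁻¹ * s) + BG Φ l s (I⁻¹ * s) := by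
    have c1 : Commute (I⁻¹ * s) I⁻¹ := (Commute.refl I⁻¹).mul_left (h.inv_left.symm)
    have c2 : Commute (I⁻¹ * s) s := (h.inv_left).mul_left (Commute.refl s)
    rw [BG_mul Φ hl c1 c2, BG_symm Φ (I⁻¹ * s) I⁻¹, BG_symm Φ (I⁻¹ * s) s]
  have e2 : BG Φ l I⁻¹ (I⁻¹ * s) = BG Φ l I⁻¹ I⁻¹ + BG Φ l I⁻¹ s :=
    BG_mul Φ hl (Commute.refl _) h.inv_left
  have e3 : BG Φ l s (I⁻¹ * s) = BG Φ l s I⁻¹ + BG Φ l s s :=
    BG_mul Φ hl h.symm.inv_right (Commute.refl s)
  have e4 : BG Φ l s I⁻¹ = - BG Φ l s I := BG_inv Φ hl h.symm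
  have e5 : BG Φ l I⁻¹ s = - BG Φ l I s := by
    rw [BG_symm Φ I⁻¹ s, e4, BG_symm Φ s I]
  have e6 : BG Φ l I⁻¹ I⁻¹ = BG Φ l I I := by
    rw [BG_inv Φ hl (Commute.refl I).inv_left, BG_symm Φ I⁻¹ I,
      BG_inv Φ hl (Commute.refl I)]
    ring
  have e7 : BG Φ l s I = BG Φ l I s := BG_symm Φ s I
  linarith

end abstractGroup

section free

variable {ι : Type*} [DecidableEq ι]

open FreeGroup (of)

abbrev Gj (j : ι) : Subgroup (FreeGroup ι) := Subgroup.closure (FreeGroup.of '' {k | k ≠ j})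

lemma hom_fix {j : ι} (f : FreeGroup ι →* FreeGroup ι) (hf : ∀ k, k ≠ j → f (of k) = of k)
    {u : FreeGroup ι} (hu : u ∈ Gj j) : f u = u := by
  induction hu using Subgroup.closure_induction with
  | mem x hx =>
    obtain ⟨k, hk, rfl⟩ := hx
    exact hf k hk
  | one => exact map_one f
  | mul x y _ _ hx hy => rw [map_mul, hx, hy]
  | inv x _ hx => rw [map_inv, hx]

omit [DecidableEq ι] in
lemma of_mem_Gj {i j : ι} (h : i ≠ j) : (of i : FreeGroup ι) ∈ Gj j :=
  Subgroup.subset_closure ⟨i, h, rfl⟩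

noncomputable def betaHom (j : ι) (w : FreeGroup ι) : FreeGroup ι →* FreeGroup ι :=
  FreeGroup.lift (fun k => if k = j then w * of j else of k)

noncomputable def gammaHom (j : ι) (w : FreeGroup ι) : FreeGroup ι →* FreeGroup ι :=
  FreeGroup.lift (fun k => if k = j then of j * w⁻¹ else of k)

lemma betaHom_self (j : ι) (w : FreeGroup ι) : betaHom j w (of j) = w * of j := by
  simp [betaHom]

lemma betaHom_ne {j k : ι} (w : FreeGroup ι) (h : k ≠ j) : betaHom j w (of k) = of k := by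
  simp [betaHom, h]

lemma gammaHom_self (j : ι) (w : FreeGroup ι) : gammaHom j w (of j) = of j * w⁻¹ := by
  simp [gammaHom]

lemma gammaHom_ne {j k : ι} (w : FreeGroup ι) (h : k ≠ j) : gammaHom j w (of k) = of k := by
  simp [gammaHom, h]

lemma betaHom_fix {j : ι} (w : FreeGroup ι) {u : FreeGroup ι} (hu : u ∈ Gj j) :
    betaHom j w u = u := hom_fix _ (fun _ hk => betaHom_ne w hk) hu

lemma gammaHom_fix {j : ι} (w : FreeGroup ι) {u : FreeGroup ι} (hu : u ∈ Gj j) :
    gammaHom j w u = u := hom_fix _ (fun _ hk => gammaHom_ne w hk) hu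

noncomputable def beta (j : ι) (w : FreeGroup ι) (hw : w ∈ Gj j) : MulAut (FreeGroup ι) :=
  MonoidHom.toMulEquiv (betaHom j w) (betaHom j w⁻¹)
    (by
      ext k
      by_cases h : k = j
      · subst h
        simp [betaHom_self, betaHom_fix _ hw]
      · simp [betaHom_ne _ h])
    (by
      ext k
      by_cases h : k = j
      · subst h
        simp [betaHom_self, betaHom_fix _ hw]
      · simp [betaHom_ne _ h])

noncomputable def gamma (j : ι) (w : FreeGroup ι) (hw : w ∈ Gj j) : MulAut (FreeGroup ι) :=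
  MonoidHom.toMulEquiv (gammaHom j w) (gammaHom j w⁻¹)
    (by
      ext k
      by_cases h : k = j
      · subst h
        simp [gammaHom_self, gammaHom_fix _ hw]
      · simp [gammaHom_ne _ h])
    (by
      ext k
      by_cases h : k = j
      · subst h
        simp [gammaHom_self, gammaHom_fix _ hw]
      · simp [gammaHom_ne _ h])

lemma beta_apply (j : ι) (w : FreeGroup ι) (hw : w ∈ Gj j) (u : FreeGroup ι) :
    beta j w hw u = betaHom j w u := rfl

lemma gamma_apply (j : ι) (w : FreeGroup ι) (hw : w ∈ Gj j) (u : FreeGroup ι) :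
    gamma j w hw u = gammaHom j w u := rfl

omit [DecidableEq ι] in
lemma aut_conj (s : MulAut (FreeGroup ι)) (w : FreeGroup ι) :
    s * MulAut.conj w * s⁻¹ = MulAut.conj (s w) := by
  ext x
  simp [MulAut.mul_apply, MulAut.conj_apply]

lemma comm_of_fix {s : MulAut (FreeGroup ι)} {w : FreeGroup ι} (h : s w = w) :
    Commute (MulAut.conj w) s := by
  have := aut_conj s w
  rw [h, mul_inv_eq_iff_eq_mul] at this
  exact this.symm

lemma beta_half {W : Type*} [AddCommGroup W] [Module ℂ W] [FiniteDimensional ℂ W]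
    (Φ : MulAut (FreeGroup ι) →* (Module.End ℂ W)ˣ) {l : ℂ → ℝ} (hl : IsLog l)
    {s : MulAut (FreeGroup ι)} {w x : FreeGroup ι} (hw : s w = w) (hx : s x = w * x) :
    BG Φ l (MulAut.conj w) s = BG Φ l (MulAut.conj w) (MulAut.conj w) / 2 := by
  have h1 : s * MulAut.conj x * s⁻¹ = MulAut.conj w * MulAut.conj x := by
    rw [aut_conj, hx, map_mul]
  apply BG_half Φ hl (comm_of_fix hw) (t := MulAut.conj x)
  rw [mul_inv_eq_iff_eq_mul] at h1
  rw [mul_inv_eq_iff_eq_mul, mul_assoc, h1]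
  group

lemma gamma_half {W : Type*} [AddCommGroup W] [Module ℂ W] [FiniteDimensional ℂ W]
    (Φ : MulAut (FreeGroup ι) →* (Module.End ℂ W)ˣ) {l : ℂ → ℝ} (hl : IsLog l)
    {s : MulAut (FreeGroup ι)} {w x : FreeGroup ι} (hw : s w = w) (hx : s x = x * w⁻¹) :
    BG Φ l (MulAut.conj w) s = BG Φ l (MulAut.conj w) (MulAut.conj w) / 2 := by
  have h1 : s * MulAut.conj x * s⁻¹ = MulAut.conj x * (MulAut.conj w)⁻¹ := by
    rw [aut_conj, hx, map_mul, map_inv]
  have hc := comm_of_fix hw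
  apply BG_half Φ hl hc (t := (MulAut.conj x)⁻¹)
  rw [mul_inv_eq_iff_eq_mul] at h1
  rw [inv_inv, mul_assoc, h1, mul_assoc, inv_mul_cancel_left]

lemma partial_conj {W : Type*} [AddCommGroup W] [Module ℂ W] [FiniteDimensional ℂ W]
    (Φ : MulAut (FreeGroup ι) →* (Module.End ℂ W)ˣ) {l : ℂ → ℝ} (hl : IsLog l) (i : ι)
    (s : Finset ι) (hs : i ∉ s) :
    ∃ K : MulAut (FreeGroup ι), (∀ k ∈ s, K (of k) = of i * of k * (of i)⁻¹) ∧
      (∀ k, k ∉ s → K (of k) = of k) ∧
      BG Φ l (MulAut.conj (of i)) K =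
        (s.card : ℝ) * BG Φ l (MulAut.conj (of i)) (MulAut.conj (of i)) := by
  induction s using Finset.induction_on with
  | empty =>
    refine ⟨1, by simp, by simp, ?_⟩
    rw [BG_one Φ hl]
    simp
  | insert j s hj ih =>
    obtain ⟨K, hK1, hK2, hK3⟩ := ih (fun h => hs (Finset.mem_insert_of_mem h))
    have hij : i ≠ j := fun h => hs (h ▸ Finset.mem_insert_self j s)
    have his : i ∉ s := fun h => hs (Finset.mem_insert_of_mem h)
    have hi : (of i : FreeGroup ι) ∈ Gj j := of_mem_Gj hij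
    refine ⟨beta j (of i) hi * (gamma j (of i) hi * K), ?_, ?_, ?_⟩
    · intro k hk
      rw [Finset.mem_insert] at hk
      rw [MulAut.mul_apply, MulAut.mul_apply, beta_apply, gamma_apply]
      rcases hk with rfl | hk
      · rw [hK2 _ hj, gammaHom_self, _root_.map_mul, _root_.map_inv, betaHom_self,
          betaHom_ne _ hij]
      · have hkj : k ≠ j := fun h => hj (h ▸ hk)
        have hm : (of i * of k * (of i)⁻¹ : FreeGroup ι) ∈ Gj j :=
          mul_mem (mul_mem hi (of_mem_Gj hkj)) (inv_mem hi)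
        rw [hK1 k hk, gammaHom_fix _ hm, betaHom_fix _ hm]
    · intro k hk
      rw [Finset.mem_insert, not_or] at hk
      rw [MulAut.mul_apply, MulAut.mul_apply, beta_apply, gamma_apply, hK2 k hk.2,
        gammaHom_ne _ hk.1, betaHom_ne _ hk.1]
    · have hb : beta j (of i) hi (of i) = of i := betaHom_ne _ hij
      have hg : gamma j (of i) hi (of i) = of i := gammaHom_ne _ hij
      have hK : K (of i) = of i := hK2 i his
      rw [BG_mul Φ hl (comm_of_fix hb) ((comm_of_fix hg).mul_right (comm_of_fix hK)),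
        BG_mul Φ hl (comm_of_fix hg) (comm_of_fix hK), hK3,
        beta_half Φ hl hb (x := of j) (betaHom_self _ _),
        gamma_half Φ hl hg (x := of j) (gammaHom_self _ _), Finset.card_insert_of_notMem hj]
      push_cast
      ring

lemma q_of [Fintype ι] (h3 : 3 ≤ Fintype.card ι)
    {W : Type*} [AddCommGroup W] [Module ℂ W] [FiniteDimensional ℂ W]
    (Φ : MulAut (FreeGroup ι) →* (Module.End ℂ W)ˣ) {l : ℂ → ℝ} (hl : IsLog l) (i : ι) :
    BG Φ l (MulAut.conj (of i)) (MulAut.conj (of i)) = 0 := by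
  obtain ⟨K, hK1, hK2, hK3⟩ := partial_conj Φ hl i (Finset.univ.erase i) (by simp)
  have hK : K = MulAut.conj (of i) := by
    apply MulEquiv.toMonoidHom_injective
    ext k
    by_cases hk : k = i
    · subst hk
      have := hK2 k (by simp)
      simp [this]
    · have := hK1 k (by simp [hk])
      simp [this]
  rw [hK, Finset.card_erase_of_mem (Finset.mem_univ i), Finset.card_univ] at hK3
  have h4 : ((Fintype.card ι - 1 : ℕ) : ℝ) ≠ 1 := by
    have : Fintype.card ι - 1 ≠ 1 := by omega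
    exact_mod_cast this
  have h5 : (((Fintype.card ι - 1 : ℕ) : ℝ) - 1) *
      BG Φ l (MulAut.conj (of i)) (MulAut.conj (of i)) = 0 := by linarith
  rcases mul_eq_zero.mp h5 with h | h
  · exact absurd (by linarith) h4
  · exact h

theorem q_proper [Fintype ι] (h3 : 3 ≤ Fintype.card ι)
    {W : Type*} [AddCommGroup W] [Module ℂ W] [FiniteDimensional ℂ W]
    (Φ : MulAut (FreeGroup ι) →* (Module.End ℂ W)ˣ) {l : ℂ → ℝ} (hl : IsLog l) (j : ι)
    {w : FreeGroup ι} (hw : w ∈ Gj j) :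
    BG Φ l (MulAut.conj w) (MulAut.conj w) = 0 := by
  have key : ∀ (u : FreeGroup ι) (hu : u ∈ Gj j), ∀ v ∈ Gj j,
      BG Φ l (MulAut.conj v) (beta j u hu) = 0 := by
    intro u hu v hv
    induction hv using Subgroup.closure_induction with
    | mem x hx =>
      obtain ⟨k, hk, rfl⟩ := hx
      exact BG_zero Φ (q_of h3 Φ hl k) _
    | one =>
      rw [_root_.map_one, BG_symm]
      exact BG_one Φ hl _
    | mul x y hx hy ihx ihy =>
      have cx : Commute (MulAut.conj x) (beta j u hu) := comm_of_fix (betaHom_fix _ hx)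
      have cy : Commute (MulAut.conj y) (beta j u hu) := comm_of_fix (betaHom_fix _ hy)
      rw [_root_.map_mul, BG_symm, BG_mul Φ hl cx.symm cy.symm, BG_symm Φ _ (MulAut.conj x),
        BG_symm Φ _ (MulAut.conj y), ihx, ihy, add_zero]
    | inv x hx ihx =>
      have cx : Commute (MulAut.conj x) (beta j u hu) := comm_of_fix (betaHom_fix _ hx)
      rw [_root_.map_inv, BG_symm, BG_inv Φ hl cx.symm, BG_symm, ihx, neg_zero]
  have h1 := key w hw w hw
  rw [beta_half Φ hl (betaHom_fix _ hw) (x := of j) (betaHom_self _ _)] at h1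
  linarith

end free

end Pool.Agent.Helper69.DF
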