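import Pool.Agent.Helper69.DF.Torsion

set_option autoImplicit false

namespace Pool.Agent.Helper69.DF

open Module Module.End Polynomial Matrix

variable {d : ℕ} {G : Type*} [Group G]

noncomputable def WW (ρ : G →* SpecialLinearGroup (Fin d) ℂ) : Submodule ℂ (Matrix (Fin d) (Fin d) ℂ) :=
  Submodule.span ℂ (Set.range fun x => (ρ x : Matrix (Fin d) (Fin d) ℂ))

noncomputable def conjL (g : SpecialLinearGroup (Fin d) ℂ) : Matrix (Fin d) (Fin d) ℂ →ₗ[ℂ] Matrix (Fin d) (Fin d) ℂ :=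
  (LinearMap.mulLeft ℂ (g : Matrix (Fin d) (Fin d) ℂ)).comp (LinearMap.mulRight ℂ ((g⁻¹ : SpecialLinearGroup (Fin d) ℂ) : Matrix (Fin d) (Fin d) ℂ))

lemma conjL_apply (g : SpecialLinearGroup (Fin d) ℂ) (M : Matrix (Fin d) (Fin d) ℂ) :
    conjL g M = (g : Matrix (Fin d) (Fin d) ℂ) * M * ((g⁻¹ : SpecialLinearGroup (Fin d) ℂ) : Matrix (Fin d) (Fin d) ℂ) := by
  simp [conjL, mul_assoc]

lemma conjL_rho (g x : SpecialLinearGroup (Fin d) ℂ) :
    conjL g (x : Matrix (Fin d) (Fin d) ℂ) = ((g * x * g⁻¹ : SpecialLinearGroup (Fin d) ℂ) : Matrix (Fin d) (Fin d) ℂ) := by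
  rw [conjL_apply]
  rfl

lemma conjL_agree (ρ : G →* SpecialLinearGroup (Fin d) ℂ) (L L' : Matrix (Fin d) (Fin d) ℂ →ₗ[ℂ] Matrix (Fin d) (Fin d) ℂ)
    (h : ∀ x, L (ρ x : Matrix (Fin d) (Fin d) ℂ) = L' (ρ x : Matrix (Fin d) (Fin d) ℂ)) {M : Matrix (Fin d) (Fin d) ℂ} (hM : M ∈ WW ρ) :
    L M = L' M := by
  unfold WW at hM
  induction hM using Submodule.span_induction with
  | mem x hx =>
    obtain ⟨y, rfl⟩ := hx
    exact h y
  | zero => rw [map_zero, map_zero]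
  | add x y _ _ hx hy => rw [map_add, map_add, hx, hy]
  | smul a x _ hx => rw [map_smul, map_smul, hx]

lemma conjL_mem (ρ : G →* SpecialLinearGroup (Fin d) ℂ) (L : Matrix (Fin d) (Fin d) ℂ →ₗ[ℂ] Matrix (Fin d) (Fin d) ℂ)
    (h : ∀ x, L (ρ x : Matrix (Fin d) (Fin d) ℂ) ∈ WW ρ) : ∀ M ∈ WW ρ, L M ∈ WW ρ := by
  intro M hM
  unfold WW at hM
  induction hM using Submodule.span_induction with
  | mem x hx =>
    obtain ⟨y, rfl⟩ := hx
    exact h y
  | zero => rw [map_zero]; exact zero_mem _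
  | add x y _ _ hx hy => rw [map_add]; exact add_mem hx hy
  | smul a x _ hx => rw [map_smul]; exact Submodule.smul_mem _ _ hx

lemma rho_mem (ρ : G →* SpecialLinearGroup (Fin d) ℂ) (x : G) : (ρ x : Matrix (Fin d) (Fin d) ℂ) ∈ WW ρ :=
  Submodule.subset_span ⟨x, rfl⟩

noncomputable def PhiEnd (ρ : G →* SpecialLinearGroup (Fin d) ℂ)
    (g : MulAut G → SpecialLinearGroup (Fin d) ℂ)
    (hg : ∀ (σ : MulAut G) (x : G), ρ (σ x) = g σ * ρ x * (g σ)⁻¹) :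
    MulAut G →* Module.End ℂ (WW ρ) where
  toFun σ := (conjL (g σ)).restrict (conjL_mem ρ _ (fun x => by
    rw [conjL_rho, ← hg]; exact rho_mem ρ _))
  map_one' := by
    refine LinearMap.ext fun M => Subtype.ext ?_
    change conjL (g 1) (M : Matrix (Fin d) (Fin d) ℂ) = (M : Matrix (Fin d) (Fin d) ℂ)
    refine conjL_agree ρ (conjL (g 1)) LinearMap.id (fun x => ?_) M.2
    rw [conjL_rho, ← hg]
    rfl
  map_mul' σ τ := by
    refine LinearMap.ext fun M => Subtype.ext ?_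
    change conjL (g (σ * τ)) (M : Matrix (Fin d) (Fin d) ℂ) = conjL (g σ) (conjL (g τ) (M : Matrix (Fin d) (Fin d) ℂ))
    refine conjL_agree ρ (conjL (g (σ * τ))) ((conjL (g σ)).comp (conjL (g τ))) (fun x => ?_) M.2
    rw [LinearMap.comp_apply, conjL_rho, ← hg, conjL_rho, ← hg, conjL_rho, ← hg]
    rfl

noncomputable def adW (ρ : G →* SpecialLinearGroup (Fin d) ℂ) (w : G) :
    Module.End ℂ (WW ρ) :=
  (conjL (ρ w)).restrict (conjL_mem ρ _ (fun x => by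
    rw [conjL_rho, ← map_mul, ← map_inv, ← map_mul]; exact rho_mem ρ _))

lemma Phi_conj (ρ : G →* SpecialLinearGroup (Fin d) ℂ)
    (g : MulAut G → SpecialLinearGroup (Fin d) ℂ)
    (hg : ∀ (σ : MulAut G) (x : G), ρ (σ x) = g σ * ρ x * (g σ)⁻¹) (w : G) :
    PhiEnd ρ g hg (MulAut.conj w) = adW ρ w := by
  refine LinearMap.ext fun M => Subtype.ext ?_
  change conjL (g (MulAut.conj w)) (M : Matrix (Fin d) (Fin d) ℂ) = conjL (ρ w) (M : Matrix (Fin d) (Fin d) ℂ)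
  refine conjL_agree ρ _ _ (fun x => ?_) M.2
  rw [conjL_rho, ← hg, conjL_rho, MulAut.conj_apply, map_mul, map_mul, map_inv]

theorem ad_roots {ι : Type*} [DecidableEq ι] [Fintype ι] (h3 : 3 ≤ Fintype.card ι)
    (ρ : FreeGroup ι →* SpecialLinearGroup (Fin d) ℂ)
    (hchar : ∀ σ : FreeGroup ι ≃* FreeGroup ι, ∃ g : SpecialLinearGroup (Fin d) ℂ,
      ∀ x, ρ (σ x) = g * ρ x * g⁻¹) (τ : FreeGroup ι ≃* FreeGroup ι) (j : ι)
    {w : FreeGroup ι} (hw : τ w ∈ Gj j) :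
    ∀ a ∈ (adW ρ w).charpoly.roots, ∃ m : ℕ, 0 < m ∧ a ^ m = 1 := by
  intro a ha
  choose g hg using hchar
  have hg' : ∀ (σ : MulAut (FreeGroup ι)) (x : FreeGroup ι), ρ (σ x) = g σ * ρ x * (g σ)⁻¹ :=
    fun σ x => hg σ x
  set Φ := (PhiEnd ρ g hg').toHomUnits with hΦ
  have hval : ∀ σ, ((Φ σ : (Module.End ℂ (WW ρ))ˣ) : Module.End ℂ (WW ρ)) = PhiEnd ρ g hg' σ :=
    fun σ => rfl
  apply roots_of_unity h3 Φ j hw a
  have h1 : MulAut.conj (τ w) = (τ : MulAut (FreeGroup ι)) * MulAut.conj w *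
      (τ : MulAut (FreeGroup ι))⁻¹ := (aut_conj τ w).symm
  have h2 : ((Φ (MulAut.conj (τ w)) : (Module.End ℂ (WW ρ))ˣ) : Module.End ℂ (WW ρ)) =
      (LinearMap.GeneralLinearGroup.toLinearEquiv (Φ τ)).conj
        (Φ (MulAut.conj w) : Module.End ℂ (WW ρ)) := by
    rw [h1, map_mul, map_mul, map_inv, Units.val_mul, Units.val_mul]
    rfl
  rw [h2, LinearEquiv.charpoly_conj, hval, Phi_conj]
  exact ha

end Pool.Agent.Helper69.DF
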