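import Pool.Agent.Helper69.DF.Zar

set_option autoImplicit false

namespace Pool.Agent.Helper69.DF

open Matrix Module

variable {d : ℕ}

lemma isPoly_functional (φ : (Fin d → ℂ) →ₗ[ℂ] ℂ) (v : Fin d → ℂ) :
    IsPoly (fun M : Matrix (Fin d) (Fin d) ℂ => φ (Matrix.toLin' M v)) := by
  have h : ∀ M : Matrix (Fin d) (Fin d) ℂ, φ (Matrix.toLin' M v) =
      ∑ i, (∑ k, M i k * v k) * φ (fun j => if i = j then 1 else 0) := by
    intro M
    rw [LinearMap.pi_apply_eq_sum_univ φ]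
    refine Finset.sum_congr rfl fun i _ => ?_
    rw [smul_eq_mul]
    rfl
  simp_rw [h]
  exact IsPoly.sum _ _ fun i _ => (IsPoly.sum _ _ fun k _ =>
    (IsPoly.entry i k).mul (IsPoly.const _)).mul (IsPoly.const _)

noncomputable def chiU (U : Submodule ℂ (Fin d → ℂ)) (P : (Fin d → ℂ) →ₗ[ℂ] U)
    (M : Matrix (Fin d) (Fin d) ℂ) : ℂ :=
  LinearMap.det (P ∘ₗ (Matrix.toLin' M) ∘ₗ U.subtype)

lemma isPoly_chiU (U : Submodule ℂ (Fin d → ℂ)) (P : (Fin d → ℂ) →ₗ[ℂ] U) :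
    IsPoly (chiU U P) := by
  classical
  let b := Module.finBasis ℂ U
  have h : chiU U P = fun M => (LinearMap.toMatrix b b
      (P ∘ₗ (Matrix.toLin' M) ∘ₗ U.subtype)).det := by
    funext M
    rw [LinearMap.det_toMatrix]
    rfl
  rw [h]
  refine IsPoly.det_of fun i j => ?_
  have h2 : (fun M : Matrix (Fin d) (Fin d) ℂ =>
      (LinearMap.toMatrix b b (P ∘ₗ (Matrix.toLin' M) ∘ₗ U.subtype)) i j) =
      fun M => ((b.coord i) ∘ₗ P) (Matrix.toLin' M (b j : Fin d → ℂ)) := by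
    funext M
    rw [LinearMap.toMatrix_apply]
    rfl
  rw [h2]
  exact isPoly_functional _ _

lemma chiU_mul (U : Submodule ℂ (Fin d → ℂ)) (P : (Fin d → ℂ) →ₗ[ℂ] U)
    (hP : P ∘ₗ U.subtype = LinearMap.id) (A B : Matrix (Fin d) (Fin d) ℂ)
    (hB : ∀ u ∈ U, Matrix.toLin' B u ∈ U) : chiU U P (A * B) = chiU U P A * chiU U P B := by
  unfold chiU
  rw [← LinearMap.det_comp]
  congr 1
  refine LinearMap.ext fun u => ?_
  have h1 : ((P (Matrix.toLin' B (u : Fin d → ℂ)) : U) : Fin d → ℂ) =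
      Matrix.toLin' B (u : Fin d → ℂ) := by
    have := LinearMap.congr_fun hP ⟨_, hB u u.2⟩
    exact congrArg Subtype.val this
  simp only [LinearMap.comp_apply, Submodule.subtype_apply, Matrix.toLin'_mul]
  rw [h1]

lemma chiU_one (U : Submodule ℂ (Fin d → ℂ)) (P : (Fin d → ℂ) →ₗ[ℂ] U)
    (hP : P ∘ₗ U.subtype = LinearMap.id) : chiU U P 1 = 1 := by
  unfold chiU
  rw [Matrix.toLin'_one, LinearMap.id_comp, hP, LinearMap.det_id]

lemma chiU_restrict (U : Submodule ℂ (Fin d → ℂ)) (P : (Fin d → ℂ) →ₗ[ℂ] U)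
    (hP : P ∘ₗ U.subtype = LinearMap.id) (A : Matrix (Fin d) (Fin d) ℂ)
    (hA : ∀ u ∈ U, Matrix.toLin' A u ∈ U) :
    chiU U P A = LinearMap.det ((Matrix.toLin' A).restrict hA) := by
  unfold chiU
  congr 1
  refine LinearMap.ext fun u => ?_
  exact LinearMap.congr_fun hP ⟨_, hA u u.2⟩

theorem det_triv {Z : Set (Matrix (Fin d) (Fin d) ℂ)} (hG : GrpSet Z)
    (hd : ZCl (DU Z) = Z) (U : Submodule ℂ (Fin d → ℂ))
    (hU : ∀ M ∈ Z, ∀ u ∈ U, Matrix.toLin' M u ∈ U) (M : Matrix (Fin d) (Fin d) ℂ) (hM : M ∈ Z) :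
    LinearMap.det ((Matrix.toLin' M).restrict (hU M hM)) = 1 := by
  obtain ⟨P, hP⟩ := LinearMap.exists_leftInverse_of_injective U.subtype
    (Submodule.ker_subtype U)
  rw [← chiU_restrict U P hP M (hU M hM)]
  have hinv : ∀ A ∈ Z, chiU U P A * chiU U P A.adjugate = 1 := by
    intro A hA
    rw [← chiU_mul U P hP A A.adjugate (hU _ (hG.adj A hA)), Matrix.mul_adjugate, hG.det A hA,
      one_smul, chiU_one U P hP]
  have hDD : ∀ k, ∀ A ∈ DD Z k, chiU U P A = 1 := by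
    intro k
    induction k with
    | zero =>
      intro A hA
      have : A = 1 := hA
      rw [this, chiU_one U P hP]
    | succ k ih =>
      rintro _ ⟨A, hA, B, hB, C, hC, rfl⟩
      have hCZ := DD_subset hG k hC
      rw [chiU_mul U P hP _ C (hU _ hCZ), ih C hC, mul_one]
      unfold cm
      rw [chiU_mul U P hP _ _ (hU _ (hG.adj B hB)), chiU_mul U P hP _ _ (hU _ (hG.adj A hA)),
        chiU_mul U P hP _ _ (hU _ hB)]
      calc chiU U P A * chiU U P B * chiU U P A.adjugate * chiU U P B.adjugate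
          = (chiU U P A * chiU U P A.adjugate) * (chiU U P B * chiU U P B.adjugate) := by ring
        _ = 1 := by rw [hinv A hA, hinv B hB, one_mul]
  have h1 : M ∈ ZCl (DU Z) := by rw [hd]; exact hM
  have h2 := h1 (fun M => chiU U P M - 1) ((isPoly_chiU U P).sub (IsPoly.const 1))
    (fun A hA => by
      obtain ⟨k, hk⟩ := hA
      rw [hDD k A hk, sub_self])
  exact sub_eq_zero.mp h2

lemma stable_of_stable {S : Set (Matrix (Fin d) (Fin d) ℂ)} (U : Submodule ℂ (Fin d → ℂ))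
    (hU : ∀ M ∈ S, ∀ u ∈ U, Matrix.toLin' M u ∈ U) :
    ∀ M ∈ ZCl S, ∀ u ∈ U, Matrix.toLin' M u ∈ U := by
  intro M hM u hu
  obtain ⟨P, hP⟩ := LinearMap.exists_leftInverse_of_injective U.subtype
    (Submodule.ker_subtype U)
  obtain ⟨Q, hQ⟩ : ∃ Q : (Fin d → ℂ) →ₗ[ℂ] (Fin d → ℂ), ∀ v, Q v = v - (P v : Fin d → ℂ) :=
    ⟨LinearMap.id - U.subtype ∘ₗ P, fun v => rfl⟩
  have key : ∀ v : Fin d → ℂ, v ∈ U ↔ Q v = 0 := by
    intro v
    rw [hQ]
    constructor
    · intro hv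
      have := LinearMap.congr_fun hP ⟨v, hv⟩
      have h2 : (P v : Fin d → ℂ) = v := congrArg Subtype.val this
      rw [h2, sub_self]
    · intro h
      have h2 : v = (P v : Fin d → ℂ) := sub_eq_zero.mp h
      rw [h2]
      exact (P v).2
  rw [key]
  funext i
  exact hM (fun N => ((LinearMap.proj i) ∘ₗ Q) (Matrix.toLin' N u))
    (isPoly_functional _ _) (fun B hB => by
      have := (key _).mp (hU B hB u hu)
      rw [LinearMap.comp_apply, this, map_zero])

end Pool.Agent.Helper69.DF
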