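import Pool.Agent.Helper69.DF.Unip
import Pool.Agent.Helper69.DF.DetTriv

set_option autoImplicit false

namespace Pool.Agent.Helper69.DF

open Matrix Module Module.End Polynomial

variable {d : ℕ}

lemma det_restrict_maxGen {W : Type*} [AddCommGroup W] [Module ℂ W] [FiniteDimensional ℂ W]
    (Y : Module.End ℂ W) (μ : ℂ) (h : ∀ x ∈ Y.maxGenEigenspace μ, Y x ∈ Y.maxGenEigenspace μ) :
    LinearMap.det (Y.restrict h) = μ ^ (finrank ℂ (Y.maxGenEigenspace μ)) := by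
  have hs : (Y.restrict h).charpoly.Splits := IsAlgClosed.splits _
  have hcard : (Y.restrict h).charpoly.roots.card = finrank ℂ (Y.maxGenEigenspace μ) := by
    rw [← LinearMap.charpoly_natDegree (Y.restrict h)]
    exact (splits_iff_card_roots.mp hs)
  have hall : ∀ a ∈ (Y.restrict h).charpoly.roots, a = μ := ?_
  · rw [Module.End.det_eq_prod_roots_charpoly_of_splits hs, ← hcard,
      Multiset.eq_replicate_card.mpr hall, Multiset.prod_replicate, Multiset.card_replicate]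
  intro a ha
  rw [mem_roots (LinearMap.charpoly_monic _).ne_zero, ← hasEigenvalue_iff_isRoot_charpoly] at ha
  obtain ⟨v, hv⟩ := ha.exists_hasEigenvector
  have hv1 : Y (v : W) = a • (v : W) := congrArg Subtype.val hv.apply_eq_smul
  obtain ⟨k, hk⟩ := (mem_maxGenEigenspace Y μ _).mp v.2
  have hpow : ∀ k : ℕ, ((Y - μ • (1 : Module.End ℂ W)) ^ k) (v : W) = (a - μ) ^ k • (v : W) := by
    intro k
    induction k with
    | zero => simp
    | succ k ih =>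
      rw [pow_succ', Module.End.mul_apply, ih, map_smul, LinearMap.sub_apply, hv1,
        LinearMap.smul_apply, Module.End.one_apply, ← sub_smul, smul_smul, pow_succ]
  rw [hpow k, smul_eq_zero] at hk
  rcases hk with hk | hk
  · exact sub_eq_zero.mp (eq_zero_of_pow_eq_zero hk)
  · exact absurd (Subtype.ext hk) hv.2

theorem eig_root_of_unity {ι : Type*} [DecidableEq ι] [Fintype ι] (h3 : 3 ≤ Fintype.card ι)
    (ρ : FreeGroup ι →* SpecialLinearGroup (Fin d) ℂ)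
    (Z : Set (Matrix (Fin d) (Fin d) ℂ))
    (hZ : ∀ M : Matrix (Fin d) (Fin d) ℂ, M ∈ Z ↔
      ∀ p : MvPolynomial (Fin d × Fin d) ℂ,
        (∀ x : FreeGroup ι,
          MvPolynomial.eval
            (fun ij : Fin d × Fin d => (ρ x : Matrix (Fin d) (Fin d) ℂ) ij.1 ij.2) p = 0) →
        MvPolynomial.eval (fun ij : Fin d × Fin d => M ij.1 ij.2) p = 0)
    (hirr : ∀ p q : MvPolynomial (Fin d × Fin d) ℂ,
      (∀ M ∈ Z, MvPolynomial.eval (fun ij : Fin d × Fin d => M ij.1 ij.2) (p * q) = 0) →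
      (∀ M ∈ Z, MvPolynomial.eval (fun ij : Fin d × Fin d => M ij.1 ij.2) p = 0) ∨
      (∀ M ∈ Z, MvPolynomial.eval (fun ij : Fin d × Fin d => M ij.1 ij.2) q = 0))
    (hnc : ∃ A ∈ Z, ∃ B ∈ Z, A * B ≠ B * A)
    (hs : ∀ H : Set (Matrix (Fin d) (Fin d) ℂ), H ⊆ Z →
      (1 : Matrix (Fin d) (Fin d) ℂ) ∈ H →
      (∀ A ∈ H, ∀ B ∈ H, A * B ∈ H) →
      (∀ A ∈ H, A⁻¹ ∈ H) →
      (∀ A ∈ Z, ∀ B ∈ H, A * B * A⁻¹ ∈ H) →
      (∀ M : Matrix (Fin d) (Fin d) ℂ,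
        (∀ p : MvPolynomial (Fin d × Fin d) ℂ,
          (∀ B ∈ H, MvPolynomial.eval (fun ij : Fin d × Fin d => B ij.1 ij.2) p = 0) →
          MvPolynomial.eval (fun ij : Fin d × Fin d => M ij.1 ij.2) p = 0) → M ∈ H) →
      (∀ p q : MvPolynomial (Fin d × Fin d) ℂ,
        (∀ B ∈ H, MvPolynomial.eval (fun ij : Fin d × Fin d => B ij.1 ij.2) (p * q) = 0) →
        (∀ B ∈ H, MvPolynomial.eval (fun ij : Fin d × Fin d => B ij.1 ij.2) p = 0) ∨
        (∀ B ∈ H, MvPolynomial.eval (fun ij : Fin d × Fin d => B ij.1 ij.2) q = 0)) →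
      H = {1} ∨ H = Z)
    (hchar : ∀ σ : FreeGroup ι ≃* FreeGroup ι, ∃ g : SpecialLinearGroup (Fin d) ℂ,
      ∀ x, ρ (σ x) = g * ρ x * g⁻¹) (τ : FreeGroup ι ≃* FreeGroup ι) (j : ι)
    {w : FreeGroup ι} (hw : τ w ∈ Gj j) (a : ℂ)
    (ha : HasEigenvalue (Matrix.toLin' (ρ w : Matrix (Fin d) (Fin d) ℂ)) a) :
    ∃ m : ℕ, 0 < m ∧ a ^ m = 1 := by
  set S : Set (Matrix (Fin d) (Fin d) ℂ) := {M | ∃ x, M = (ρ x : Matrix (Fin d) (Fin d) ℂ)}
    with hS
  have hSG : GrpSet S := by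
    refine ⟨⟨1, ?_⟩, ?_, ?_, ?_⟩
    · rw [map_one]
      rfl
    · rintro _ ⟨x, rfl⟩ _ ⟨y, rfl⟩
      exact ⟨x * y, by rw [map_mul]; rfl⟩
    · rintro _ ⟨x, rfl⟩
      exact ⟨x⁻¹, by rw [map_inv]; rfl⟩
    · rintro _ ⟨x, rfl⟩
      exact (ρ x).2
  have hZS : Z = ZCl S := by
    ext M
    rw [hZ]
    constructor
    · rintro h f ⟨p, hp⟩ hf
      rw [← hp]
      exact h p (fun x => by rw [hp]; exact hf _ ⟨x, rfl⟩)
    · intro h p hp
      exact h (fun N => MvPolynomial.eval (fun ij : Fin d × Fin d => N ij.1 ij.2) p)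
        ⟨p, fun _ => rfl⟩ (by rintro _ ⟨x, rfl⟩; exact hp x)
  have hG : GrpSet Z := by
    rw [hZS]
    exact hSG.zcl
  have hI : Irr Z := by
    rintro f g ⟨p, hp⟩ ⟨q, hq⟩ h
    rcases hirr p q (fun M hM => by rw [map_mul, hp, hq]; exact h M hM) with h' | h'
    · left
      intro M hM
      rw [← hp]
      exact h' M hM
    · right
      intro M hM
      rw [← hq]
      exact h' M hM
  have hcl : ZCl Z ⊆ Z := by
    rw [hZS]
    exact ZCl_idem S
  have hd := comm_dense hG hI hcl hnc hs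
  obtain ⟨N, hN, hN'⟩ := common_exp _ (ad_roots h3 ρ hchar τ j hw)
  have hnil := pow_sub_one_nilp (adW ρ w) N hN'
  rw [← adW_pow] at hnil
  set y := w ^ N with hy
  set Y : Module.End ℂ (Fin d → ℂ) := Matrix.toLin' (ρ y : Matrix (Fin d) (Fin d) ℂ) with hY
  have hpow : ∀ (k : ℕ), Matrix.toLin' (ρ (w ^ k) : Matrix (Fin d) (Fin d) ℂ) =
      (Matrix.toLin' (ρ w : Matrix (Fin d) (Fin d) ℂ) : Module.End ℂ (Fin d → ℂ)) ^ k := by
    intro k
    induction k with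
    | zero =>
      rw [pow_zero, pow_zero, map_one]
      exact Matrix.toLin'_one
    | succ k ih =>
      rw [pow_succ, pow_succ, ← ih, map_mul]
      exact Matrix.toLin'_mul _ _
  obtain ⟨v, hv⟩ := ha.exists_hasEigenvector
  have hYv : HasEigenvector Y (a ^ N) v := by
    refine ⟨?_, hv.2⟩
    rw [mem_genEigenspace_one, hY, hy, hpow]
    exact hv.pow_apply N
  have hstabW : ∀ M ∈ S, ∀ u ∈ Y.maxGenEigenspace (a ^ N),
      Matrix.toLin' M u ∈ Y.maxGenEigenspace (a ^ N) := by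
    rintro _ ⟨x, rfl⟩ u hu
    exact stab_of_nilp ρ y (a ^ N) _ ⟨_, rho_mem ρ x⟩ (by rw [hnil]; rfl) u hu
  have hstabZ : ∀ M ∈ Z, ∀ u ∈ Y.maxGenEigenspace (a ^ N),
      Matrix.toLin' M u ∈ Y.maxGenEigenspace (a ^ N) := by
    rw [hZS]
    exact stable_of_stable _ hstabW
  have hyZ : (ρ y : Matrix (Fin d) (Fin d) ℂ) ∈ Z := by
    rw [hZS]
    exact subset_ZCl S ⟨y, rfl⟩
  have hdet := det_triv hG hd _ hstabZ _ hyZ
  have hdet2 : LinearMap.det ((Matrix.toLin' (ρ y : Matrix (Fin d) (Fin d) ℂ)).restrict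
      (hstabZ _ hyZ)) = (a ^ N) ^ (finrank ℂ (Y.maxGenEigenspace (a ^ N))) :=
    det_restrict_maxGen Y (a ^ N) (hstabZ _ hyZ)
  rw [hdet2, ← pow_mul] at hdet
  refine ⟨N * finrank ℂ (Y.maxGenEigenspace (a ^ N)), Nat.mul_pos hN ?_, hdet⟩
  rw [Nat.pos_iff_ne_zero, Ne, Submodule.finrank_eq_zero]
  intro hbot
  have : v ∈ Y.maxGenEigenspace (a ^ N) := eigenspace_le_maxGenEigenspace hYv.1
  rw [hbot] at this
  exact hYv.2 this

end Pool.Agent.Helper69.DF
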