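import Mathlib

set_option autoImplicit false

namespace Pool.Agent.Helper69.DF

open Module Module.End Polynomial

variable {W : Type*} [AddCommGroup W] [Module ℂ W] [FiniteDimensional ℂ W]

noncomputable def NN (X Y : Module.End ℂ W) (a b : ℂ) : ℝ :=
  (finrank ℂ (X.maxGenEigenspace a ⊓ Y.maxGenEigenspace b : Submodule ℂ W) : ℝ)

noncomputable def BB (l : ℂ → ℝ) (X Y : Module.End ℂ W) : ℝ :=
  ∑ a ∈ X.charpoly.roots.toFinset, ∑ b ∈ Y.charpoly.roots.toFinset, NN X Y a b * l a * l b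

omit [FiniteDimensional ℂ W] in
lemma NN_symm (X Y : Module.End ℂ W) (a b : ℂ) : NN X Y a b = NN Y X b a := by
  unfold NN
  rw [inf_comm]

lemma BB_symm (l : ℂ → ℝ) (X Y : Module.End ℂ W) : BB l X Y = BB l Y X := by
  unfold BB
  rw [Finset.sum_comm]
  refine Finset.sum_congr rfl fun b _ => Finset.sum_congr rfl fun a _ => ?_
  rw [NN_symm]
  ring

def IsLog (l : ℂ → ℝ) : Prop := ∀ a b : ℂ, a ≠ 0 → b ≠ 0 → l (a * b) = l a + l b

lemma IsLog.one {l : ℂ → ℝ} (hl : IsLog l) : l 1 = 0 := by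
  have h := hl 1 1 one_ne_zero one_ne_zero
  rw [mul_one] at h
  linarith

lemma IsLog.prod {l : ℂ → ℝ} (hl : IsLog l) (s : Multiset ℂ) (hs : ∀ a ∈ s, a ≠ 0) :
    l s.prod = (s.map l).sum := by
  induction s using Multiset.induction_on with
  | empty => simpa using hl.one
  | cons a s ih =>
    rw [Multiset.prod_cons, Multiset.map_cons, Multiset.sum_cons, hl, ih]
    · intro b hb
      exact hs b (Multiset.mem_cons_of_mem hb)
    · exact hs a (Multiset.mem_cons_self a s)
    · rw [Ne, Multiset.prod_eq_zero_iff]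
      intro h0
      exact hs 0 (Multiset.mem_cons_of_mem h0) rfl

lemma maxGen_eq_bot_of_not_root (Z : Module.End ℂ W) (b : ℂ)
    (hb : b ∉ Z.charpoly.roots.toFinset) : Z.maxGenEigenspace b = ⊥ := by
  have h1 : finrank ℂ (Z.maxGenEigenspace b) = 0 := by
    rw [LinearMap.finrank_maxGenEigenspace_eq]
    rw [Multiset.mem_toFinset, mem_roots (LinearMap.charpoly_monic Z).ne_zero] at hb
    exact rootMultiplicity_eq_zero hb
  exact Submodule.finrank_eq_zero.mp h1

lemma root_ne_zero {Z : Module.End ℂ W} (hZ : IsUnit Z) {a : ℂ}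
    (ha : a ∈ Z.charpoly.roots) : a ≠ 0 := by
  rintro rfl
  rw [mem_roots (LinearMap.charpoly_monic Z).ne_zero, ← hasEigenvalue_iff_isRoot_charpoly] at ha
  obtain ⟨v, hv⟩ := ha.exists_hasEigenvector
  obtain ⟨u, rfl⟩ := hZ
  have h1 : (u : Module.End ℂ W) v = 0 := by
    have := hv.apply_eq_smul
    simpa using this
  have h2 : ((u⁻¹ : (Module.End ℂ W)ˣ) : Module.End ℂ W) ((u : Module.End ℂ W) v) = v := by
    rw [← Module.End.mul_apply, Units.inv_mul, Module.End.one_apply]
  rw [h1, map_zero] at h2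
  exact hv.2 h2.symm

lemma log_det {l : ℂ → ℝ} (hl : IsLog l) (Z : Module.End ℂ W) (hZ : IsUnit Z) :
    l (LinearMap.det Z) =
      ∑ b ∈ Z.charpoly.roots.toFinset, (finrank ℂ (Z.maxGenEigenspace b) : ℝ) * l b := by
  rw [det_eq_prod_roots_charpoly_of_splits (IsAlgClosed.splits _),
    hl.prod _ (fun a ha => root_ne_zero hZ ha), Finset.sum_multiset_map_count]
  refine Finset.sum_congr rfl fun b _ => ?_
  rw [count_roots, LinearMap.finrank_maxGenEigenspace_eq, nsmul_eq_mul]

omit [FiniteDimensional ℂ W] in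
lemma mapsE {X Y : Module.End ℂ W} (h : Commute X Y) (a : ℂ) :
    ∀ x ∈ X.maxGenEigenspace a, Y x ∈ X.maxGenEigenspace a :=
  fun _ hx => mapsTo_maxGenEigenspace_of_comm h a hx

lemma isUnit_restrict {Y : Module.End ℂ W} (hY : IsUnit Y) (p : Submodule ℂ W)
    (h : ∀ x ∈ p, Y x ∈ p) : IsUnit (Y.restrict h) := by
  rw [LinearMap.isUnit_iff_ker_eq_bot]
  rw [LinearMap.isUnit_iff_ker_eq_bot] at hY
  rw [LinearMap.ker_eq_bot] at hY ⊢
  intro x y hxy
  apply Subtype.ext
  apply hY
  have := congrArg Subtype.val hxy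
  simpa using this

lemma log_det_restrict {l : ℂ → ℝ} (hl : IsLog l) {X Y : Module.End ℂ W} (h : Commute X Y)
    (hY : IsUnit Y) (a : ℂ) :
    l (LinearMap.det (Y.restrict (mapsE h a))) =
      ∑ b ∈ Y.charpoly.roots.toFinset, NN X Y a b * l b := by
  rw [log_det hl _ (isUnit_restrict hY _ _)]
  have key : ∀ b : ℂ, (finrank ℂ (maxGenEigenspace (Y.restrict (mapsE h a)) b) : ℝ) =
      NN X Y a b := by
    intro b
    unfold NN
    have h1 : X.maxGenEigenspace a ⊓ Y.maxGenEigenspace b =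
        (maxGenEigenspace (Y.restrict (mapsE h a)) b).map (X.maxGenEigenspace a).subtype :=
      Submodule.inf_genEigenspace Y (X.maxGenEigenspace a) (mapsE h a)
    rw [h1]
    congr 1
    exact (LinearEquiv.finrank_eq (Submodule.equivSubtypeMap _ _))
  simp_rw [key]
  have hzero : ∀ b : ℂ, b ∉ (Y.restrict (mapsE h a)).charpoly.roots.toFinset →
      NN X Y a b * l b = 0 := by
    intro b hb
    rw [← key b, maxGen_eq_bot_of_not_root _ _ hb]
    simp
  have hzero' : ∀ b : ℂ, b ∉ Y.charpoly.roots.toFinset → NN X Y a b * l b = 0 := by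
    intro b hb
    unfold NN
    rw [maxGen_eq_bot_of_not_root _ _ hb]
    simp
  rw [Finset.sum_subset (Finset.subset_union_left
      (s₂ := Y.charpoly.roots.toFinset)) (fun b _ hb => hzero b hb),
    Finset.sum_subset (Finset.subset_union_right
      (s₁ := (Y.restrict (mapsE h a)).charpoly.roots.toFinset)) (fun b _ hb => hzero' b hb)]

lemma BB_eq {l : ℂ → ℝ} (hl : IsLog l) {X Y : Module.End ℂ W} (h : Commute X Y)
    (hY : IsUnit Y) :
    BB l X Y = ∑ a ∈ X.charpoly.roots.toFinset,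
      l a * l (LinearMap.det (Y.restrict (mapsE h a))) := by
  unfold BB
  refine Finset.sum_congr rfl fun a _ => ?_
  rw [log_det_restrict hl h hY, Finset.mul_sum]
  refine Finset.sum_congr rfl fun b _ => ?_
  ring

lemma BB_mul {l : ℂ → ℝ} (hl : IsLog l) {X Y Z : Module.End ℂ W} (h : Commute X Y)
    (h' : Commute X Z) (hY : IsUnit Y) (hZ : IsUnit Z) :
    BB l X (Y * Z) = BB l X Y + BB l X Z := by
  rw [BB_eq hl h hY, BB_eq hl h' hZ, BB_eq hl (h.mul_right h') (hY.mul hZ),
    ← Finset.sum_add_distrib]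
  refine Finset.sum_congr rfl fun a _ => ?_
  rw [← mul_add, ← hl]
  · congr 2
    rw [← LinearMap.det_comp]
    congr 1
  · exact (LinearMap.isUnit_det _ (isUnit_restrict hY _ _)).ne_zero
  · exact (LinearMap.isUnit_det _ (isUnit_restrict hZ _ _)).ne_zero

lemma BB_self {l : ℂ → ℝ} (X : Module.End ℂ W) :
    BB l X X = ∑ a ∈ X.charpoly.roots.toFinset,
      (finrank ℂ (X.maxGenEigenspace a) : ℝ) * (l a) ^ 2 := by
  unfold BB
  refine Finset.sum_congr rfl fun a ha => ?_
  rw [Finset.sum_eq_single a]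
  · unfold NN
    rw [inf_idem]
    ring
  · intro b _ hb
    unfold NN
    have : Disjoint (X.maxGenEigenspace a) (X.maxGenEigenspace b) :=
      disjoint_genEigenspace X (Ne.symm hb) ⊤ ⊤
    rw [this.eq_bot]
    simp
  · intro h
    exact absurd ha h

lemma log_eq_zero_of_BB_self {l : ℂ → ℝ} (X : Module.End ℂ W) (h : BB l X X = 0) :
    ∀ a ∈ X.charpoly.roots.toFinset, l a = 0 := by
  intro a ha
  rw [BB_self] at h
  have h1 := (Finset.sum_eq_zero_iff_of_nonneg (fun b _ => by positivity)).mp h a ha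
  have h2 : (finrank ℂ (X.maxGenEigenspace a) : ℝ) ≠ 0 := by
    rw [LinearMap.finrank_maxGenEigenspace_eq]
    rw [Multiset.mem_toFinset, mem_roots (LinearMap.charpoly_monic X).ne_zero] at ha
    have := (rootMultiplicity_pos (LinearMap.charpoly_monic X).ne_zero).mpr ha
    exact_mod_cast this.ne'
  have h3 := (mul_eq_zero.mp h1).resolve_left h2
  exact pow_eq_zero_iff (two_ne_zero) |>.mp h3

lemma BB_eq_zero_of_self {l : ℂ → ℝ} (X Y : Module.End ℂ W) (h : BB l X X = 0) :
    BB l X Y = 0 := by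
  unfold BB
  refine Finset.sum_eq_zero fun a ha => Finset.sum_eq_zero fun b _ => ?_
  rw [log_eq_zero_of_BB_self X h a ha]
  ring

omit [FiniteDimensional ℂ W] in
lemma maxGen_conj (X : Module.End ℂ W) (e : W ≃ₗ[ℂ] W) (a : ℂ) :
    (e.conj X).maxGenEigenspace a = (X.maxGenEigenspace a).map (e : W →ₗ[ℂ] W) := by
  ext v
  rw [mem_maxGenEigenspace, Submodule.mem_map]
  have hk : ∀ k : ℕ, ((e.conj X - a • 1) ^ k) = e.conj ((X - a • 1) ^ k) := by
    intro k
    have h1 : e.conj X - a • 1 = e.conj (X - a • 1) := by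
      rw [map_sub, map_smul]
      congr 2
      exact (LinearEquiv.conj_id e).symm
    rw [h1]
    induction k with
    | zero =>
      rw [pow_zero, pow_zero]
      exact (LinearEquiv.conj_id e).symm
    | succ k ih =>
      rw [pow_succ, pow_succ, ih]
      exact (LinearEquiv.conj_comp e _ _).symm
  constructor
  · rintro ⟨k, hk'⟩
    refine ⟨e.symm v, ?_, by simp⟩
    rw [mem_maxGenEigenspace]
    refine ⟨k, ?_⟩
    rw [hk k, LinearEquiv.conj_apply_apply] at hk'
    exact (LinearEquiv.map_eq_zero_iff e).mp hk'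
  · rintro ⟨w, hw, rfl⟩
    rw [mem_maxGenEigenspace] at hw
    obtain ⟨k, hk'⟩ := hw
    refine ⟨k, ?_⟩
    rw [hk k, LinearEquiv.conj_apply_apply]
    simp [hk']

lemma BB_conj (l : ℂ → ℝ) (X Y : Module.End ℂ W) (e : W ≃ₗ[ℂ] W) :
    BB l (e.conj X) (e.conj Y) = BB l X Y := by
  unfold BB
  rw [LinearEquiv.charpoly_conj, LinearEquiv.charpoly_conj]
  refine Finset.sum_congr rfl fun a _ => Finset.sum_congr rfl fun b _ => ?_
  congr 2
  unfold NN
  rw [maxGen_conj, maxGen_conj, ← Submodule.map_inf _ e.injective]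
  congr 1
  exact LinearEquiv.finrank_map_eq e _

end Pool.Agent.Helper69.DF
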