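import Mathlib

set_option autoImplicit false

namespace Pool.Agent.Helper69.DF

open Polynomial

lemma int_jacobson : IsJacobsonRing ℤ := by
  rw [isJacobsonRing_iff_prime_eq]
  intro P hP
  by_cases h : P = ⊥
  · subst h
    rw [eq_bot_iff]
    intro x hx
    rw [Ideal.mem_bot]
    by_contra h0
    obtain ⟨p, hp, hpp⟩ := Nat.exists_infinite_primes (x.natAbs + 1)
    have hmax : (Ideal.span {(p : ℤ)}).IsMaximal := by
      have hprime : Prime (p : ℤ) := Nat.prime_iff_prime_int.mp hpp
      exact PrincipalIdealRing.isMaximal_of_irreducible hprime.irreducible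
    have h1 : x ∈ Ideal.span {(p : ℤ)} := by
      rw [Ideal.jacobson, Ideal.mem_sInf] at hx
      exact hx ⟨bot_le, hmax⟩
    rw [Ideal.mem_span_singleton] at h1
    have h2 : p ∣ x.natAbs := Int.natCast_dvd.mp h1
    have h3 := Nat.le_of_dvd (Int.natAbs_pos.mpr h0) h2
    omega
  · have := IsPrime.to_maximal_ideal h
    exact Ideal.jacobson_eq_self_of_isMaximal

lemma finite_field_of_finiteType (k : Type*) [Field k] [Algebra.FiniteType ℤ k] : Finite k := by
  have := int_jacobson
  have : Module.Finite ℤ k := finite_of_finite_type_of_isJacobsonRing ℤ k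
  have : Algebra.IsIntegral ℤ k := Algebra.IsIntegral.of_finite ℤ k
  have hker : ∃ n : ℤ, n ≠ 0 ∧ (n : k) = 0 := by
    by_contra hcon
    push Not at hcon
    have hinj : Function.Injective (algebraMap ℤ k) := by
      rw [injective_iff_map_eq_zero]
      intro n hn
      by_contra h0
      exact hcon n h0 (by simpa using hn)
    exact Int.not_isField (isField_of_isIntegral_of_isField hinj (Field.toIsField k))
  obtain ⟨n, hn, hn'⟩ := hker
  apply Module.finite_of_fg_torsion k
  intro x
  refine ⟨⟨n, mem_nonZeroDivisors_of_ne_zero hn⟩, ?_⟩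
  change n • x = 0
  rw [zsmul_eq_mul, hn', zero_mul]

lemma exists_finite_residue (R : Type*) [CommRing R] [Nontrivial R] [Algebra.FiniteType ℤ R] :
    ∃ m : Ideal R, m.IsMaximal ∧ Finite (R ⧸ m) := by
  obtain ⟨m, hm⟩ := Ideal.exists_maximal R
  refine ⟨m, hm, ?_⟩
  have key : ∀ (k : Type _) [Field k] (f : R →+* k), Function.Surjective f → Finite k := by
    intro k _ f hf
    have : Algebra.FiniteType ℤ k :=
      Algebra.FiniteType.of_surjective (RingHom.toIntAlgHom f) hf
    exact finite_field_of_finiteType k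
  exact @key (R ⧸ m) (Ideal.Quotient.field m) (Ideal.Quotient.mk m) Ideal.Quotient.mk_surjective

end Pool.Agent.Helper69.DF
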