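import Pool.Agent.Helper69.DF.Residue

set_option autoImplicit false

namespace Pool.Agent.Helper69.DF

open Polynomial

lemma prime_mem_of_order {R : Subalgebra ℤ ℂ} (m : Ideal R) (hm : m.IsMaximal) {d : ℕ}
    (A : Matrix (Fin d) (Fin d) R) (hA : A.map (Ideal.Quotient.mk m) = 1) (ζ : ℂ)
    (hζ : (A.map (algebraMap R ℂ)).charpoly.IsRoot ζ) (hord : 0 < orderOf ζ) (l : ℕ)
    (hl : l.Prime) (hdvd : l ∣ orderOf ζ) : ((l : ℕ) : R) ∈ m := by
  have hroot : aeval ζ A.charpoly = 0 := by
    rw [Matrix.charpoly_map, IsRoot.def, eval_map_algebraMap] at hζ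
    exact hζ
  have hint : IsIntegral R ζ := ⟨A.charpoly, A.charpoly_monic, by rwa [← aeval_def]⟩
  let S := integralClosure R ℂ
  let z : S := ⟨ζ, hint⟩
  have hz : aeval z A.charpoly = 0 := by
    apply Subtype.ext
    have : ((aeval z A.charpoly : S) : ℂ) = aeval ζ A.charpoly :=
      (aeval_algebraMap_apply ℂ z A.charpoly).symm
    rw [this, hroot]
    rfl
  obtain ⟨Q, hQ, hQm⟩ := Ideal.exists_ideal_over_maximal_of_isIntegral (S := S) m (by
    have : Function.Injective (algebraMap R S) := by
      intro a b hab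
      apply Subtype.ext
      have := congrArg (algebraMap S ℂ) hab
      exact this
    rw [(RingHom.injective_iff_ker_eq_bot _).mp this]
    exact bot_le)
  letI := Ideal.Quotient.field Q
  let φ : R →+* S ⧸ Q := (Ideal.Quotient.mk Q).comp (algebraMap R S)
  have hφm : ∀ r ∈ m, φ r = 0 := by
    intro r hr
    rw [← hQm, Ideal.mem_comap] at hr
    exact Ideal.Quotient.eq_zero_iff_mem.mpr hr
  have hAφ : A.map φ = 1 := by
    ext i j
    have h1 := congrFun (congrFun hA i) j
    rw [Matrix.map_apply] at h1 ⊢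
    have h2 : A i j - (1 : Matrix (Fin d) (Fin d) R) i j ∈ m := by
      rw [← Ideal.Quotient.eq_zero_iff_mem, map_sub, h1, sub_eq_zero]
      by_cases hij : i = j
      · subst hij
        simp
      · simp [hij]
    have h3 := hφm _ h2
    rw [map_sub, sub_eq_zero] at h3
    rw [h3]
    by_cases hij : i = j
    · subst hij
      simp
    · simp [hij]
  have hz1 : Ideal.Quotient.mk Q z = 1 := by
    have h1 : eval (Ideal.Quotient.mk Q z) (A.charpoly.map φ) = 0 := by
      rw [eval_map, ← hom_eval₂]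
      have : eval₂ (algebraMap R S) z A.charpoly = 0 := hz
      rw [this, map_zero]
    rw [← Matrix.charpoly_map, hAφ, Matrix.charpoly_one] at h1
    simp only [Fintype.card_fin, eval_pow, eval_sub, eval_X, eval_one] at h1
    exact sub_eq_zero.mp (eq_zero_of_pow_eq_zero h1)
  have hgeom : ∑ i ∈ Finset.range l, (z ^ (orderOf ζ / l)) ^ i = 0 := by
    apply Subtype.ext
    have h0 : orderOf ζ / l * l = orderOf ζ := Nat.div_mul_cancel hdvd
    have h1 : (∑ i ∈ Finset.range l, (ζ ^ (orderOf ζ / l)) ^ i) * (ζ ^ (orderOf ζ / l) - 1) = 0 := by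
      rw [geom_sum_mul, ← pow_mul, h0, pow_orderOf_eq_one, sub_self]
    have h2 : ζ ^ (orderOf ζ / l) - 1 ≠ 0 := by
      rw [sub_ne_zero]
      apply pow_ne_one_of_lt_orderOf
      · have := Nat.div_pos (Nat.le_of_dvd hord hdvd) hl.pos
        omega
      · exact Nat.div_lt_self hord hl.one_lt
    have h3 := (mul_eq_zero.mp h1).resolve_right h2
    push_cast
    exact h3
  have hlQ : (l : S ⧸ Q) = 0 := by
    have h1 := congrArg (Ideal.Quotient.mk Q) hgeom
    rw [map_sum, map_zero] at h1
    simp only [map_pow, hz1, one_pow, Finset.sum_const, Finset.card_range, nsmul_eq_mul,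
      mul_one] at h1
    exact h1
  rw [← hQm, Ideal.mem_comap, ← Ideal.Quotient.eq_zero_iff_mem, map_natCast, map_natCast]
  exact hlQ

end Pool.Agent.Helper69.DF
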