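import Pool.Agent.Helper69.DF.AutRep

set_option autoImplicit false

namespace Pool.Agent.Helper69.DF

open Module Module.End Polynomial

noncomputable instance divReal : DivisibleBy ℝ ℤ where
  div a n := a / (n : ℝ)
  div_zero a := by simp
  div_cancel {n} a hn := by
    have : (n : ℝ) ≠ 0 := by exact_mod_cast hn
    rw [zsmul_eq_mul]
    field_simp

lemma exists_log (u : ℂˣ) (hu : ∀ m : ℕ, 0 < m → u ^ m ≠ 1) :
    ∃ l : ℂ → ℝ, IsLog l ∧ l (u : ℂ) ≠ 0 := by
  classical
  have hinj : Function.Injective (zmultiplesHom (Additive ℂˣ) (Additive.ofMul u)) := by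
    rw [injective_iff_map_eq_zero]
    intro n hn
    rw [zmultiplesHom_apply] at hn
    by_contra h0
    have h1 : u ^ n = 1 := by
      have := congrArg Additive.toMul hn
      simpa using this
    have h2 : u ^ n.natAbs = 1 := by
      rcases Int.natAbs_eq n with h | h
      · rw [h, zpow_natCast] at h1
        simpa using h1
      · rw [h, zpow_neg, zpow_natCast, inv_eq_one] at h1
        simpa using h1
    exact hu n.natAbs (Int.natAbs_pos.mpr h0) h2
  obtain ⟨h, hh⟩ := (Module.Baer.of_divisible ℝ).extension_property_addMonoidHom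
    (zmultiplesHom (Additive ℂˣ) (Additive.ofMul u)) hinj (Int.castAddHom ℝ)
  refine ⟨fun z => if hz : z = 0 then 0 else h (Additive.ofMul (Units.mk0 z hz)), ?_, ?_⟩
  · intro a b ha hb
    have hab : a * b ≠ 0 := mul_ne_zero ha hb
    show (if hz : a * b = 0 then 0 else h (Additive.ofMul (Units.mk0 (a * b) hz))) =
      (if hz : a = 0 then 0 else h (Additive.ofMul (Units.mk0 a hz))) +
      (if hz : b = 0 then 0 else h (Additive.ofMul (Units.mk0 b hz)))
    rw [dif_neg ha, dif_neg hb, dif_neg hab, ← map_add, ← ofMul_mul, ← Units.mk0_mul]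
  · have h1 : h (Additive.ofMul u) = 1 := by
      have := DFunLike.congr_fun hh 1
      simpa using this
    have h2 : Units.mk0 (u : ℂ) u.ne_zero = u := Units.ext rfl
    simp only [Units.ne_zero, dite_false, h2, h1]
    exact one_ne_zero

lemma torsion_of_logs {z : ℂ} (hz : z ≠ 0) (h : ∀ l : ℂ → ℝ, IsLog l → l z = 0) :
    ∃ m : ℕ, 0 < m ∧ z ^ m = 1 := by
  by_contra hcon
  push Not at hcon
  obtain ⟨l, hl, hl'⟩ := exists_log (Units.mk0 z hz) (by
    intro m hm h1
    apply hcon m hm
    have := congrArg Units.val h1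
    simpa using this)
  exact hl' (h l hl)

theorem roots_of_unity {ι : Type*} [DecidableEq ι] [Fintype ι] (h3 : 3 ≤ Fintype.card ι)
    {W : Type*} [AddCommGroup W] [Module ℂ W] [FiniteDimensional ℂ W]
    (Φ : MulAut (FreeGroup ι) →* (Module.End ℂ W)ˣ) (j : ι)
    {w : FreeGroup ι} (hw : w ∈ Gj j) (a : ℂ)
    (ha : a ∈ ((Φ (MulAut.conj w) : (Module.End ℂ W)ˣ) : Module.End ℂ W).charpoly.roots) :
    ∃ m : ℕ, 0 < m ∧ a ^ m = 1 := by
  classical
  apply torsion_of_logs (root_ne_zero (Units.isUnit _) ha)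
  intro l hl
  have h := q_proper h3 Φ hl j hw
  exact log_eq_zero_of_BB_self _ h a (Multiset.mem_toFinset.mpr ha)

end Pool.Agent.Helper69.DF
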