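import Pool.Agent.Helper69.DF.Char

set_option autoImplicit false

namespace Pool.Agent.Helper69.DF

open Module Module.End Polynomial Matrix

lemma common_exp (s : Multiset ℂ) (h : ∀ a ∈ s, ∃ m : ℕ, 0 < m ∧ a ^ m = 1) :
    ∃ N : ℕ, 0 < N ∧ ∀ a ∈ s, a ^ N = 1 := by
  induction s using Multiset.induction_on with
  | empty => exact ⟨1, one_pos, by simp⟩
  | cons a s ih =>
    obtain ⟨N, hN, hN'⟩ := ih (fun b hb => h b (Multiset.mem_cons_of_mem hb))
    obtain ⟨m, hm, hm'⟩ := h a (Multiset.mem_cons_self a s)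
    refine ⟨m * N, Nat.mul_pos hm hN, ?_⟩
    intro b hb
    rcases Multiset.mem_cons.mp hb with rfl | hb
    · rw [pow_mul, hm', one_pow]
    · rw [mul_comm, pow_mul, hN' b hb, one_pow]

lemma pow_sub_one_nilp {W : Type*} [AddCommGroup W] [Module ℂ W] [FiniteDimensional ℂ W]
    (f : Module.End ℂ W) (N : ℕ) (h : ∀ a ∈ f.charpoly.roots, a ^ N = 1) :
    (f ^ N - 1) ^ (finrank ℂ W) = 0 := by
  have hs : f.charpoly.Splits := IsAlgClosed.splits _
  have h1 : f.charpoly = (f.charpoly.roots.map fun a => X - C a).prod :=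
    hs.eq_prod_roots_of_monic (LinearMap.charpoly_monic f)
  have hdvd : ∀ s : Multiset ℂ, (∀ a ∈ s, a ^ N = 1) →
      (s.map fun a => (X - C a : ℂ[X])).prod ∣ (X ^ N - 1 : ℂ[X]) ^ s.card := by
    intro s
    induction s using Multiset.induction_on with
    | empty => intro _; simp
    | cons a s ih =>
      intro hs'
      rw [Multiset.map_cons, Multiset.prod_cons, Multiset.card_cons, pow_succ']
      refine mul_dvd_mul ?_ (ih (fun b hb => hs' b (Multiset.mem_cons_of_mem hb)))
      rw [dvd_iff_isRoot]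
      simp [hs' a (Multiset.mem_cons_self a s)]
  have h2 := hdvd _ h
  rw [← h1] at h2
  have hcard : f.charpoly.roots.card = finrank ℂ W := by
    rw [← LinearMap.charpoly_natDegree f]
    exact (splits_iff_card_roots.mp hs)
  rw [hcard] at h2
  obtain ⟨q, hq⟩ := h2
  have h3 := congrArg (aeval f) hq
  rw [map_mul, LinearMap.aeval_self_charpoly, zero_mul, map_pow, map_sub, map_pow, aeval_X,
    map_one] at h3
  exact h3

variable {d : ℕ} {G : Type*} [Group G]

lemma adW_pow (ρ : G →* SpecialLinearGroup (Fin d) ℂ) (w : G) (N : ℕ) :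
    adW ρ (w ^ N) = (adW ρ w) ^ N := by
  induction N with
  | zero =>
    rw [pow_zero, pow_zero]
    refine LinearMap.ext fun M => Subtype.ext ?_
    change conjL (ρ 1) (M : Matrix (Fin d) (Fin d) ℂ) = (M : Matrix (Fin d) (Fin d) ℂ)
    refine conjL_agree ρ (conjL (ρ 1)) LinearMap.id (fun x => ?_) M.2
    rw [conjL_rho, map_one, one_mul, inv_one, mul_one]
    rfl
  | succ N ih =>
    rw [pow_succ, pow_succ, ← ih]
    refine LinearMap.ext fun M => Subtype.ext ?_
    change conjL (ρ (w ^ N * w)) (M : Matrix (Fin d) (Fin d) ℂ) =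
      conjL (ρ (w ^ N)) (conjL (ρ w) (M : Matrix (Fin d) (Fin d) ℂ))
    refine conjL_agree ρ (conjL (ρ (w ^ N * w))) ((conjL (ρ (w ^ N))).comp (conjL (ρ w)))
      (fun x => ?_) M.2
    rw [LinearMap.comp_apply, conjL_rho, conjL_rho, conjL_rho]
    congr 1
    simp only [map_mul, map_pow]
    group

lemma conjL_mul_self (g : SpecialLinearGroup (Fin d) ℂ) (M : Matrix (Fin d) (Fin d) ℂ) :
    conjL g M * (g : Matrix (Fin d) (Fin d) ℂ) = (g : Matrix (Fin d) (Fin d) ℂ) * M := by
  rw [conjL_apply, mul_assoc, mul_assoc]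
  congr 1
  have h : ((g⁻¹ : SpecialLinearGroup (Fin d) ℂ) : Matrix (Fin d) (Fin d) ℂ) *
      (g : Matrix (Fin d) (Fin d) ℂ) = 1 := by
    have := congrArg Subtype.val (inv_mul_cancel g)
    exact this
  rw [h, mul_one]

lemma stab_of_nilp (ρ : G →* SpecialLinearGroup (Fin d) ℂ) (y : G) (μ : ℂ) (k : ℕ) :
    ∀ M : WW ρ, ((adW ρ y - 1) ^ k) M = 0 →
      ∀ v ∈ maxGenEigenspace (Matrix.toLin' (ρ y : Matrix (Fin d) (Fin d) ℂ)) μ,
        Matrix.toLin' (M : Matrix (Fin d) (Fin d) ℂ) v ∈
          maxGenEigenspace (Matrix.toLin' (ρ y : Matrix (Fin d) (Fin d) ℂ)) μ := by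
  induction k with
  | zero =>
    intro M hM v _
    rw [pow_zero, Module.End.one_apply] at hM
    rw [hM]
    simp
  | succ k ih =>
    intro M hM v hv
    set Y : Module.End ℂ (Fin d → ℂ) := Matrix.toLin' (ρ y : Matrix (Fin d) (Fin d) ℂ) with hY
    set M' : WW ρ := (adW ρ y - 1) M with hM'
    have hM1 : ((adW ρ y - 1) ^ k) M' = 0 := by
      rw [hM', ← Module.End.mul_apply, ← pow_succ]
      exact hM
    have ihM := ih M' hM1
    have hrel : ∀ u, Y (Matrix.toLin' (M : Matrix (Fin d) (Fin d) ℂ) u) =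
        Matrix.toLin' (M : Matrix (Fin d) (Fin d) ℂ) (Y u) +
        Matrix.toLin' (M' : Matrix (Fin d) (Fin d) ℂ) (Y u) := by
      intro u
      have e1 : (M' : Matrix (Fin d) (Fin d) ℂ) =
          conjL (ρ y) (M : Matrix (Fin d) (Fin d) ℂ) - (M : Matrix (Fin d) (Fin d) ℂ) := rfl
      rw [hY, ← Matrix.toLin'_mul_apply, ← Matrix.toLin'_mul_apply, ← Matrix.toLin'_mul_apply,
        ← LinearMap.add_apply, ← map_add, e1, sub_mul, conjL_mul_self]
      congr 2
      abel
    obtain ⟨a, ha⟩ := (mem_maxGenEigenspace Y μ v).mp hv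
    clear hv
    induction a generalizing v with
    | zero =>
      rw [pow_zero, Module.End.one_apply] at ha
      rw [ha, map_zero]
      exact zero_mem _
    | succ a iha =>
      set v' := (Y - μ • (1 : Module.End ℂ (Fin d → ℂ))) v with hv'
      have ha' : ((Y - μ • (1 : Module.End ℂ (Fin d → ℂ))) ^ a) v' = 0 := by
        rw [hv', ← Module.End.mul_apply, ← pow_succ]
        exact ha
      have h1 := iha v' ha'
      have hvE : v ∈ Y.maxGenEigenspace μ := (mem_maxGenEigenspace Y μ v).mpr ⟨a + 1, ha⟩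
      have hYv : Y v ∈ Y.maxGenEigenspace μ :=
        mapsTo_maxGenEigenspace_of_comm (Commute.refl Y) μ hvE
      have h2 := ihM (Y v) hYv
      have h3 : (Y - μ • (1 : Module.End ℂ (Fin d → ℂ)))
          (Matrix.toLin' (M : Matrix (Fin d) (Fin d) ℂ) v) ∈ Y.maxGenEigenspace μ := by
        have : (Y - μ • (1 : Module.End ℂ (Fin d → ℂ)))
            (Matrix.toLin' (M : Matrix (Fin d) (Fin d) ℂ) v) =
            Matrix.toLin' (M : Matrix (Fin d) (Fin d) ℂ) v' +
            Matrix.toLin' (M' : Matrix (Fin d) (Fin d) ℂ) (Y v) := by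
          rw [LinearMap.sub_apply, hrel v, hv', LinearMap.sub_apply, map_sub]
          simp only [LinearMap.smul_apply, Module.End.one_apply, map_smul]
          abel
        rw [this]
        exact add_mem h1 h2
      obtain ⟨b, hb⟩ := (mem_maxGenEigenspace Y μ _).mp h3
      refine (mem_maxGenEigenspace Y μ _).mpr ⟨b + 1, ?_⟩
      rw [pow_succ, Module.End.mul_apply]
      exact hb

end Pool.Agent.Helper69.DF
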