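import Pool.Agent.Helper69.DF.Selberg
import Pool.Agent.Helper69.DF.Eig

set_option autoImplicit false

namespace Pool.Agent.Helper69.DF

open Polynomial Matrix Module Module.End

variable {d : ℕ} {ι : Type*}

lemma lift_to_subring (ρ : FreeGroup ι →* SpecialLinearGroup (Fin d) ℂ) (R : Subalgebra ℤ ℂ)
    (hR : ∀ (i : ι) (a b : Fin d), (ρ (FreeGroup.of i) : Matrix (Fin d) (Fin d) ℂ) a b ∈ R) :
    ∃ ρR : FreeGroup ι →* SpecialLinearGroup (Fin d) R,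
      ∀ w, SpecialLinearGroup.map (algebraMap R ℂ) (ρR w) = ρ w := by
  let A : ι → Matrix (Fin d) (Fin d) R := fun i a b => ⟨_, hR i a b⟩
  have hA : ∀ i, (A i).map (algebraMap R ℂ) =
      (ρ (FreeGroup.of i) : Matrix (Fin d) (Fin d) ℂ) := by
    intro i
    ext a b
    rfl
  have hinj : Function.Injective (algebraMap R ℂ) := Subtype.val_injective
  have hdet : ∀ i, (A i).det = 1 := by
    intro i
    apply hinj
    rw [RingHom.map_det, RingHom.mapMatrix_apply, hA, map_one]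
    exact (ρ (FreeGroup.of i)).2
  refine ⟨FreeGroup.lift (fun i => ⟨A i, hdet i⟩), ?_⟩
  have : (SpecialLinearGroup.map (algebraMap R ℂ)).comp
      (FreeGroup.lift (fun i => (⟨A i, hdet i⟩ : SpecialLinearGroup (Fin d) R))) = ρ := by
    apply FreeGroup.ext_hom
    intro i
    rw [MonoidHom.comp_apply, FreeGroup.lift_apply_of]
    apply Subtype.ext
    exact hA i
  intro w
  exact DFunLike.congr_fun this w

lemma exists_red [Finite ι] (ρ : FreeGroup ι →* SpecialLinearGroup (Fin d) ℂ)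
    (R : Subalgebra ℤ ℂ) (hfin : Algebra.FiniteType ℤ R)
    (hR : ∀ (i : ι) (a b : Fin d), (ρ (FreeGroup.of i) : Matrix (Fin d) (Fin d) ℂ) a b ∈ R) :
    ∃ (m : Ideal R) (N : Subgroup (FreeGroup ι)), m.IsMaximal ∧ Finite (R ⧸ m) ∧ N.Normal ∧
      N.FiniteIndex ∧ ∀ w ∈ N, ∀ ζ : ℂ,
        HasEigenvalue (Matrix.toLin' (ρ w : Matrix (Fin d) (Fin d) ℂ)) ζ → 0 < orderOf ζ →
        ∀ l : ℕ, l.Prime → l ∣ orderOf ζ → ((l : ℕ) : R) ∈ m := by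
  obtain ⟨ρR, hρR⟩ := lift_to_subring ρ R hR
  obtain ⟨m, hm, hfinm⟩ := exists_finite_residue R
  let κ : FreeGroup ι →* SpecialLinearGroup (Fin d) (R ⧸ m) :=
    (SpecialLinearGroup.map (Ideal.Quotient.mk m)).comp ρR
  refine ⟨m, κ.ker, hm, hfinm, MonoidHom.normal_ker κ, inferInstance, ?_⟩
  intro w hw ζ hζ hord l hl hdvd
  have h1 : (ρR w : Matrix (Fin d) (Fin d) R).map (Ideal.Quotient.mk m) = 1 := by
    have : κ w = 1 := hw
    exact congrArg Subtype.val this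
  have h2 : (ρR w : Matrix (Fin d) (Fin d) R).map (algebraMap R ℂ) =
      (ρ w : Matrix (Fin d) (Fin d) ℂ) := congrArg Subtype.val (hρR w)
  refine prime_mem_of_order m hm (ρR w : Matrix (Fin d) (Fin d) R) h1 ζ ?_ hord l hl hdvd
  rw [h2]
  rw [hasEigenvalue_iff_isRoot_charpoly] at hζ
  rwa [Matrix.charpoly_toLin'] at hζ

theorem exists_unip_subgroup [Finite ι] (ρ : FreeGroup ι →* SpecialLinearGroup (Fin d) ℂ) :
    ∃ N : Subgroup (FreeGroup ι), N.Normal ∧ N.FiniteIndex ∧ ∀ w ∈ N,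
      (∀ ζ : ℂ, HasEigenvalue (Matrix.toLin' (ρ w : Matrix (Fin d) (Fin d) ℂ)) ζ →
        ∃ m : ℕ, 0 < m ∧ ζ ^ m = 1) →
      ((ρ w : Matrix (Fin d) (Fin d) ℂ) - 1) ^ d = 0 := by
  set T : Set ℂ := Set.range (fun t : ι × Fin d × Fin d =>
    (ρ (FreeGroup.of t.1) : Matrix (Fin d) (Fin d) ℂ) t.2.1 t.2.2) with hT
  have hTfin : T.Finite := Set.finite_range _
  let R₁ : Subalgebra ℤ ℂ := Algebra.adjoin ℤ T
  have hR₁ : ∀ (i : ι) (a b : Fin d),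
      (ρ (FreeGroup.of i) : Matrix (Fin d) (Fin d) ℂ) a b ∈ R₁ :=
    fun i a b => Algebra.subset_adjoin ⟨(i, a, b), rfl⟩
  have hf₁ : Algebra.FiniteType ℤ R₁ :=
    (Subalgebra.fg_iff_finiteType R₁).mp (Subalgebra.fg_def.mpr ⟨T, hTfin, rfl⟩)
  obtain ⟨m₁, N₁, hm₁, hfm₁, hN₁, hN₁', h₁⟩ := exists_red ρ R₁ hf₁ hR₁
  obtain ⟨p, hp, hpm⟩ : ∃ p : ℕ, p.Prime ∧ ∀ l : ℕ, l.Prime → ((l : ℕ) : R₁) ∈ m₁ → l = p := by
    letI := Ideal.Quotient.field m₁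
    obtain ⟨p, hp⟩ := CharP.exists (R₁ ⧸ m₁)
    have hp0 : p ≠ 0 := CharP.char_ne_zero_of_finite (R₁ ⧸ m₁) p
    have hpp : p.Prime := CharP.char_prime_of_ne_zero (R₁ ⧸ m₁) hp0
    refine ⟨p, hpp, ?_⟩
    intro l hl hlm
    have h1 : ((l : ℕ) : R₁ ⧸ m₁) = 0 := by
      rw [← map_natCast (Ideal.Quotient.mk m₁)]
      exact Ideal.Quotient.eq_zero_iff_mem.mpr hlm
    rw [CharP.cast_eq_zero_iff (R₁ ⧸ m₁) p] at h1
    exact ((Nat.prime_dvd_prime_iff_eq hpp hl).mp h1).symm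
  let R₂ : Subalgebra ℤ ℂ := Algebra.adjoin ℤ (T ∪ {(p : ℂ)⁻¹})
  have hR₂ : ∀ (i : ι) (a b : Fin d),
      (ρ (FreeGroup.of i) : Matrix (Fin d) (Fin d) ℂ) a b ∈ R₂ :=
    fun i a b => Algebra.subset_adjoin (Or.inl ⟨(i, a, b), rfl⟩)
  have hf₂ : Algebra.FiniteType ℤ R₂ :=
    (Subalgebra.fg_iff_finiteType R₂).mp (Subalgebra.fg_def.mpr
      ⟨T ∪ {(p : ℂ)⁻¹}, hTfin.union (Set.finite_singleton _), rfl⟩)
  obtain ⟨m₂, N₂, hm₂, hfm₂, hN₂, hN₂', h₂⟩ := exists_red ρ R₂ hf₂ hR₂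
  refine ⟨N₁ ⊓ N₂, inferInstance, inferInstance, ?_⟩
  rintro w ⟨hw₁, hw₂⟩ hζ
  have hone : ∀ ζ : ℂ, HasEigenvalue (Matrix.toLin' (ρ w : Matrix (Fin d) (Fin d) ℂ)) ζ →
      ζ = 1 := by
    intro ζ he
    obtain ⟨k, hk, hk'⟩ := hζ ζ he
    have hord : 0 < orderOf ζ := orderOf_pos_iff.mpr (isOfFinOrder_iff_pow_eq_one.mpr ⟨k, hk, hk'⟩)
    by_contra hne
    have hne' : orderOf ζ ≠ 1 := fun h => hne (orderOf_eq_one_iff.mp h)
    obtain ⟨l, hl, hdvd⟩ := Nat.exists_prime_and_dvd hne'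
    have hlp := hpm l hl (h₁ w hw₁ ζ he hord l hl hdvd)
    have hl2 := h₂ w hw₂ ζ he hord l hl hdvd
    rw [hlp] at hl2
    apply hm₂.ne_top
    have hinv : (p : ℂ)⁻¹ ∈ R₂ := Algebra.subset_adjoin (Or.inr rfl)
    have h1 : (⟨(p : ℂ)⁻¹, hinv⟩ : R₂) * ((p : ℕ) : R₂) = 1 := by
      apply Subtype.ext
      have hp0 : (p : ℂ) ≠ 0 := by exact_mod_cast hp.ne_zero
      push_cast
      exact inv_mul_cancel₀ hp0
    rw [Ideal.eq_top_iff_one, ← h1]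
    exact Ideal.mul_mem_left _ _ hl2
  have hnil := pow_sub_one_nilp (Matrix.toLin' (ρ w : Matrix (Fin d) (Fin d) ℂ)) 1 (by
    intro a ha
    rw [mem_roots (LinearMap.charpoly_monic _).ne_zero, ← hasEigenvalue_iff_isRoot_charpoly] at ha
    rw [hone a ha, pow_one])
  rw [pow_one, Module.finrank_fin_fun] at hnil
  have h1 : Matrix.toLin' (((ρ w : Matrix (Fin d) (Fin d) ℂ) - 1) ^ d) = 0 := by
    rw [← hnil, Matrix.toLin'_pow, map_sub, Matrix.toLin'_one]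
    rfl
  exact (LinearEquiv.map_eq_zero_iff Matrix.toLin').mp h1

end Pool.Agent.Helper69.DF
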