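import Mathlib

set_option autoImplicit false

namespace Pool.Agent.Helper69.DF

open Matrix

variable {d : ℕ}

def IsPoly (f : Matrix (Fin d) (Fin d) ℂ → ℂ) : Prop :=
  ∃ p : MvPolynomial (Fin d × Fin d) ℂ,
    ∀ M : Matrix (Fin d) (Fin d) ℂ,
      MvPolynomial.eval (fun ij : Fin d × Fin d => M ij.1 ij.2) p = f M

lemma IsPoly.const (c : ℂ) : IsPoly (fun _ : Matrix (Fin d) (Fin d) ℂ => c) :=
  ⟨MvPolynomial.C c, fun M => by simp⟩

lemma IsPoly.entry (i j : Fin d) : IsPoly (fun M : Matrix (Fin d) (Fin d) ℂ => M i j) :=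
  ⟨MvPolynomial.X (i, j), fun M => by simp⟩

lemma IsPoly.add {f g : Matrix (Fin d) (Fin d) ℂ → ℂ} (hf : IsPoly f) (hg : IsPoly g) :
    IsPoly (fun M => f M + g M) := by
  obtain ⟨p, hp⟩ := hf
  obtain ⟨q, hq⟩ := hg
  exact ⟨p + q, fun M => by rw [map_add, hp, hq]⟩

lemma IsPoly.mul {f g : Matrix (Fin d) (Fin d) ℂ → ℂ} (hf : IsPoly f) (hg : IsPoly g) :
    IsPoly (fun M => f M * g M) := by
  obtain ⟨p, hp⟩ := hf
  obtain ⟨q, hq⟩ := hg
  exact ⟨p * q, fun M => by rw [map_mul, hp, hq]⟩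

lemma IsPoly.sub {f g : Matrix (Fin d) (Fin d) ℂ → ℂ} (hf : IsPoly f) (hg : IsPoly g) :
    IsPoly (fun M => f M - g M) := by
  obtain ⟨p, hp⟩ := hf
  obtain ⟨q, hq⟩ := hg
  exact ⟨p - q, fun M => by rw [map_sub, hp, hq]⟩

lemma IsPoly.sum {α : Type*} (s : Finset α) (f : α → Matrix (Fin d) (Fin d) ℂ → ℂ)
    (hf : ∀ a ∈ s, IsPoly (f a)) : IsPoly (fun M => ∑ a ∈ s, f a M) := by
  classical
  induction s using Finset.induction_on with
  | empty => simpa using IsPoly.const (d := d) 0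
  | insert a s ha ih =>
    simp_rw [Finset.sum_insert ha]
    exact (hf a (Finset.mem_insert_self a s)).add
      (ih (fun b hb => hf b (Finset.mem_insert_of_mem hb)))

lemma IsPoly.prod {α : Type*} (s : Finset α) (f : α → Matrix (Fin d) (Fin d) ℂ → ℂ)
    (hf : ∀ a ∈ s, IsPoly (f a)) : IsPoly (fun M => ∏ a ∈ s, f a M) := by
  classical
  induction s using Finset.induction_on with
  | empty => simpa using IsPoly.const (d := d) 1
  | insert a s ha ih =>
    simp_rw [Finset.prod_insert ha]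
    exact (hf a (Finset.mem_insert_self a s)).mul
      (ih (fun b hb => hf b (Finset.mem_insert_of_mem hb)))

lemma IsPoly.comp {f : Matrix (Fin d) (Fin d) ℂ → ℂ} (hf : IsPoly f)
    {F : Matrix (Fin d) (Fin d) ℂ → Matrix (Fin d) (Fin d) ℂ}
    (hF : ∀ i j, IsPoly (fun M => F M i j)) : IsPoly (fun M => f (F M)) := by
  obtain ⟨p, hp⟩ := hf
  have : (fun M => f (F M)) = fun M : Matrix (Fin d) (Fin d) ℂ =>
      MvPolynomial.eval (fun ij : Fin d × Fin d => F M ij.1 ij.2) p := by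
    funext M
    exact (hp (F M)).symm
  rw [this]
  clear this hp
  induction p using MvPolynomial.induction_on with
  | C a => simpa using IsPoly.const (d := d) a
  | add p q hp hq => simpa using hp.add hq
  | mul_X p ij hp => simpa using hp.mul (hF ij.1 ij.2)

lemma IsPoly.det_of {m : Type*} [Fintype m] [DecidableEq m]
    {F : Matrix (Fin d) (Fin d) ℂ → Matrix m m ℂ}
    (hF : ∀ i j, IsPoly (fun M => F M i j)) : IsPoly (fun M => (F M).det) := by
  simp_rw [Matrix.det_apply']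
  refine IsPoly.sum _ _ fun σ _ => ?_
  exact (IsPoly.const _).mul (IsPoly.prod _ _ fun i _ => hF _ _)

lemma isPoly_adj (i j : Fin d) :
    IsPoly (fun M : Matrix (Fin d) (Fin d) ℂ => M.adjugate i j) := by
  simp_rw [Matrix.adjugate_apply]
  refine IsPoly.det_of fun a b => ?_
  by_cases h : a = j
  · subst h
    simpa using IsPoly.const (d := d) _
  · simpa [Matrix.updateRow_ne h] using IsPoly.entry a b

lemma isPoly_mul_left (A : Matrix (Fin d) (Fin d) ℂ) (i j : Fin d) :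
    IsPoly (fun M : Matrix (Fin d) (Fin d) ℂ => (A * M) i j) := by
  simp_rw [Matrix.mul_apply]
  exact IsPoly.sum _ _ fun k _ => (IsPoly.const _).mul (IsPoly.entry _ _)

lemma isPoly_matmul {F K : Matrix (Fin d) (Fin d) ℂ → Matrix (Fin d) (Fin d) ℂ}
    (hF : ∀ i j, IsPoly (fun M => F M i j)) (hK : ∀ i j, IsPoly (fun M => K M i j)) (i j : Fin d) :
    IsPoly (fun M : Matrix (Fin d) (Fin d) ℂ => (F M * K M) i j) := by
  simp_rw [Matrix.mul_apply]
  exact IsPoly.sum _ _ fun k _ => (hF _ _).mul (hK _ _)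

/-- Zariski closure data of a subgroup of `SL_d`. -/
def ZCl (S : Set (Matrix (Fin d) (Fin d) ℂ)) : Set (Matrix (Fin d) (Fin d) ℂ) :=
  {M | ∀ f : Matrix (Fin d) (Fin d) ℂ → ℂ, IsPoly f → (∀ B ∈ S, f B = 0) → f M = 0}

lemma subset_ZCl (S : Set (Matrix (Fin d) (Fin d) ℂ)) : S ⊆ ZCl S :=
  fun _ hM _ _ h => h _ hM

/-- a set of matrices of determinant one closed under the group operations -/
structure GrpSet (S : Set (Matrix (Fin d) (Fin d) ℂ)) : Prop where
  one : 1 ∈ S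
  mul : ∀ A ∈ S, ∀ B ∈ S, A * B ∈ S
  adj : ∀ A ∈ S, A.adjugate ∈ S
  det : ∀ A ∈ S, A.det = 1

lemma GrpSet.zcl {S : Set (Matrix (Fin d) (Fin d) ℂ)} (hS : GrpSet S) : GrpSet (ZCl S) where
  one := subset_ZCl S hS.one
  det := by
    intro A hA
    have := hA (fun M => M.det - 1) ((IsPoly.det_of fun i j => IsPoly.entry i j).sub
      (IsPoly.const 1)) (fun B hB => by rw [hS.det B hB, sub_self])
    exact sub_eq_zero.mp this
  adj := by
    intro A hA f hf hfS
    exact hA (fun M => f M.adjugate) (hf.comp fun i j => isPoly_adj i j)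
      (fun B hB => hfS _ (hS.adj B hB))
  mul := by
    intro A hA B hB f hf hfS
    have h1 : ∀ C ∈ S, f (C * B) = 0 := by
      intro C hC
      exact hB (fun M => f (C * M)) (hf.comp fun i j => isPoly_mul_left C i j)
        (fun D hD => hfS _ (hS.mul C hC D hD))
    exact hA (fun M => f (M * B))
      (hf.comp fun i j => isPoly_matmul (K := fun _ => B) (fun i j => IsPoly.entry i j)
        (fun i j => IsPoly.const (B i j)) i j)
      h1

lemma inv_eq_adj {A : Matrix (Fin d) (Fin d) ℂ} (h : A.det = 1) : A⁻¹ = A.adjugate := by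
  rw [Matrix.inv_def, h]
  simp

def Irr (Z : Set (Matrix (Fin d) (Fin d) ℂ)) : Prop :=
  ∀ f g : Matrix (Fin d) (Fin d) ℂ → ℂ, IsPoly f → IsPoly g →
    (∀ M ∈ Z, f M * g M = 0) → (∀ M ∈ Z, f M = 0) ∨ (∀ M ∈ Z, g M = 0)

lemma Irr.step {Z : Set (Matrix (Fin d) (Fin d) ℂ)} (hZ : Irr Z) {T₁ T₂ : Type*}
    {F : Matrix (Fin d) (Fin d) ℂ → T₁ → ℂ} {K : Matrix (Fin d) (Fin d) ℂ → T₂ → ℂ}
    (hF : ∀ t, IsPoly (fun M => F M t)) (hK : ∀ t, IsPoly (fun M => K M t))
    (h : ∀ M ∈ Z, (∀ t, F M t = 0) ∨ (∀ t, K M t = 0)) :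
    (∀ M ∈ Z, ∀ t, F M t = 0) ∨ (∀ M ∈ Z, ∀ t, K M t = 0) := by
  by_contra hcon
  push Not at hcon
  obtain ⟨⟨M₁, hM₁, t₁, ht₁⟩, ⟨M₂, hM₂, t₂, ht₂⟩⟩ := hcon
  rcases hZ (fun M => F M t₁) (fun M => K M t₂) (hF t₁) (hK t₂) (by
    intro M hM
    rcases h M hM with h | h
    · rw [h t₁, zero_mul]
    · rw [h t₂, mul_zero]) with h' | h'
  · exact ht₁ (h' M₁ hM₁)
  · exact ht₂ (h' M₂ hM₂)

def cm (A B : Matrix (Fin d) (Fin d) ℂ) : Matrix (Fin d) (Fin d) ℂ :=
  A * B * A.adjugate * B.adjugate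

def DD (Z : Set (Matrix (Fin d) (Fin d) ℂ)) : ℕ → Set (Matrix (Fin d) (Fin d) ℂ)
  | 0 => {1}
  | k + 1 => {M | ∃ A ∈ Z, ∃ B ∈ Z, ∃ C ∈ DD Z k, M = cm A B * C}

lemma isPoly_cm_left (B C : Matrix (Fin d) (Fin d) ℂ) (i j : Fin d) :
    IsPoly (fun M : Matrix (Fin d) (Fin d) ℂ => (cm M B * C) i j) := by
  unfold cm
  refine isPoly_matmul (K := fun _ => C) (fun i j => ?_) (fun i j => IsPoly.const (C i j)) i j
  refine isPoly_matmul (K := fun _ => B.adjugate) (fun i j => ?_)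
    (fun i j => IsPoly.const (B.adjugate i j)) i j
  refine isPoly_matmul (fun i j => ?_) (fun i j => isPoly_adj i j) i j
  exact isPoly_matmul (K := fun _ => B) (fun i j => IsPoly.entry i j)
    (fun i j => IsPoly.const (B i j)) i j

lemma isPoly_cm_right (A C : Matrix (Fin d) (Fin d) ℂ) (i j : Fin d) :
    IsPoly (fun M : Matrix (Fin d) (Fin d) ℂ => (cm A M * C) i j) := by
  unfold cm
  refine isPoly_matmul (K := fun _ => C) (fun i j => ?_) (fun i j => IsPoly.const (C i j)) i j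
  refine isPoly_matmul (fun i j => ?_) (fun i j => isPoly_adj i j) i j
  refine isPoly_matmul (K := fun _ => A.adjugate) (fun i j => ?_)
    (fun i j => IsPoly.const (A.adjugate i j)) i j
  exact isPoly_mul_left A i j

lemma irr_DD {Z : Set (Matrix (Fin d) (Fin d) ℂ)} (hZ : Irr Z) (k : ℕ) : Irr (DD Z k) := by
  induction k with
  | zero =>
    intro f g _ _ h
    have h1 := h 1 rfl
    rcases mul_eq_zero.mp h1 with h2 | h2
    · left
      intro M hM
      have : M = 1 := hM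
      rw [this, h2]
    · right
      intro M hM
      have : M = 1 := hM
      rw [this, h2]
  | succ k ih =>
    intro f g hf hg h
    have s1 : ∀ A ∈ Z, (∀ B ∈ Z, ∀ C : DD Z k, f (cm A B * C.1) = 0) ∨
        (∀ B ∈ Z, ∀ C : DD Z k, g (cm A B * C.1) = 0) := by
      intro A hA
      refine hZ.step (F := fun B (C : DD Z k) => f (cm A B * C.1))
        (K := fun B (C : DD Z k) => g (cm A B * C.1))
        (fun C => hf.comp fun i j => isPoly_cm_right A C.1 i j)
        (fun C => hg.comp fun i j => isPoly_cm_right A C.1 i j) ?_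
      intro B hB
      rcases ih (fun M => f (cm A B * M)) (fun M => g (cm A B * M))
        (hf.comp fun i j => isPoly_mul_left _ i j) (hg.comp fun i j => isPoly_mul_left _ i j)
        (fun C hC => h _ ⟨A, hA, B, hB, C, hC, rfl⟩) with h' | h'
      · left
        intro C
        exact h' C.1 C.2
      · right
        intro C
        exact h' C.1 C.2
    have s2 := hZ.step (T₁ := Z × DD Z k) (T₂ := Z × DD Z k)
      (F := fun A t => f (cm A t.1.1 * t.2.1)) (K := fun A t => g (cm A t.1.1 * t.2.1))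
      (fun t => hf.comp fun i j => isPoly_cm_left _ _ i j)
      (fun t => hg.comp fun i j => isPoly_cm_left _ _ i j)
      (fun A hA => by
        rcases s1 A hA with h' | h'
        · left
          intro t
          exact h' t.1.1 t.1.2 t.2
        · right
          intro t
          exact h' t.1.1 t.1.2 t.2)
    rcases s2 with h' | h'
    · left
      rintro M ⟨A, hA, B, hB, C, hC, rfl⟩
      exact h' A hA (⟨B, hB⟩, ⟨C, hC⟩)
    · right
      rintro M ⟨A, hA, B, hB, C, hC, rfl⟩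
      exact h' A hA (⟨B, hB⟩, ⟨C, hC⟩)

lemma cm_self {A : Matrix (Fin d) (Fin d) ℂ} (h : A.det = 1) : cm A A = 1 := by
  unfold cm
  rw [mul_assoc A A, Matrix.mul_adjugate, h, one_smul, mul_one, Matrix.mul_adjugate, h, one_smul]

lemma DD_mono {Z : Set (Matrix (Fin d) (Fin d) ℂ)} (hZ : GrpSet Z) {k m : ℕ} (h : k ≤ m) :
    DD Z k ⊆ DD Z m := by
  induction m, h using Nat.le_induction with
  | base => exact subset_rfl
  | succ m _ ih =>
    intro M hM
    refine ⟨1, hZ.one, 1, hZ.one, M, ih hM, ?_⟩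
    rw [cm_self (by simp), one_mul]

def DU (Z : Set (Matrix (Fin d) (Fin d) ℂ)) : Set (Matrix (Fin d) (Fin d) ℂ) :=
  {M | ∃ k, M ∈ DD Z k}

lemma irr_DU {Z : Set (Matrix (Fin d) (Fin d) ℂ)} (hG : GrpSet Z) (hZ : Irr Z) : Irr (DU Z) := by
  intro f g hf hg h
  by_contra hcon
  push Not at hcon
  obtain ⟨⟨M₁, ⟨k₁, hk₁⟩, h₁⟩, ⟨M₂, ⟨k₂, hk₂⟩, h₂⟩⟩ := hcon
  rcases irr_DD hZ (max k₁ k₂) f g hf hg (fun M hM => h M ⟨_, hM⟩) with h' | h'
  · exact h₁ (h' M₁ (DD_mono hG (le_max_left _ _) hk₁))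
  · exact h₂ (h' M₂ (DD_mono hG (le_max_right _ _) hk₂))

lemma irr_ZCl {S : Set (Matrix (Fin d) (Fin d) ℂ)} (hS : Irr S) : Irr (ZCl S) := by
  intro f g hf hg h
  rcases hS f g hf hg (fun M hM => h M (subset_ZCl S hM)) with h' | h'
  · left
    intro M hM
    exact hM f hf h'
  · right
    intro M hM
    exact hM g hg h'

lemma ZCl_mono {S T : Set (Matrix (Fin d) (Fin d) ℂ)} (h : S ⊆ T) : ZCl S ⊆ ZCl T :=
  fun _ hM f hf hT => hM f hf (fun _ hB => hT _ (h hB))

lemma adj_adj {A : Matrix (Fin d) (Fin d) ℂ} (h : A.det = 1) : A.adjugate.adjugate = A := by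
  let a : SpecialLinearGroup (Fin d) ℂ := ⟨A, h⟩
  have h1 : (a⁻¹)⁻¹ = a := inv_inv a
  exact congrArg Subtype.val h1

lemma DD_subset {Z : Set (Matrix (Fin d) (Fin d) ℂ)} (hZ : GrpSet Z) (k : ℕ) : DD Z k ⊆ Z := by
  induction k with
  | zero =>
    intro M hM
    have : M = 1 := hM
    rw [this]
    exact hZ.one
  | succ k ih =>
    rintro M ⟨A, hA, B, hB, C, hC, rfl⟩
    exact hZ.mul _ (hZ.mul _ (hZ.mul _ (hZ.mul _ hA _ hB) _ (hZ.adj _ hA)) _ (hZ.adj _ hB)) _
      (ih hC)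

lemma DD_mul {Z : Set (Matrix (Fin d) (Fin d) ℂ)} {k m : ℕ} {A B : Matrix (Fin d) (Fin d) ℂ}
    (hA : A ∈ DD Z k) (hB : B ∈ DD Z m) : A * B ∈ DU Z := by
  induction k generalizing A with
  | zero =>
    have : A = 1 := hA
    rw [this, one_mul]
    exact ⟨m, hB⟩
  | succ k ih =>
    obtain ⟨P, hP, Q, hQ, C, hC, rfl⟩ := hA
    obtain ⟨n, hn⟩ := ih hC
    exact ⟨n + 1, P, hP, Q, hQ, _, hn, by rw [mul_assoc]⟩

lemma DU_mul {Z : Set (Matrix (Fin d) (Fin d) ℂ)} {A B : Matrix (Fin d) (Fin d) ℂ}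
    (hA : A ∈ DU Z) (hB : B ∈ DU Z) : A * B ∈ DU Z := by
  obtain ⟨k, hk⟩ := hA
  obtain ⟨m, hm⟩ := hB
  exact DD_mul hk hm

lemma cm_mem {Z : Set (Matrix (Fin d) (Fin d) ℂ)} {A B : Matrix (Fin d) (Fin d) ℂ}
    (hA : A ∈ Z) (hB : B ∈ Z) : cm A B ∈ DU Z :=
  ⟨1, A, hA, B, hB, 1, rfl, by rw [mul_one]⟩

lemma cm_adj {A B : Matrix (Fin d) (Fin d) ℂ} (hA : A.det = 1) (hB : B.det = 1) :
    (cm A B).adjugate = cm B A := by
  unfold cm
  rw [Matrix.adjugate_mul_distrib, Matrix.adjugate_mul_distrib, Matrix.adjugate_mul_distrib,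
    adj_adj hA, adj_adj hB, ← mul_assoc, ← mul_assoc]

lemma DU_adj {Z : Set (Matrix (Fin d) (Fin d) ℂ)} (hZ : GrpSet Z)
    {A : Matrix (Fin d) (Fin d) ℂ} (hA : A ∈ DU Z) : A.adjugate ∈ DU Z := by
  obtain ⟨k, hk⟩ := hA
  induction k generalizing A with
  | zero =>
    have : A = 1 := hk
    rw [this, Matrix.adjugate_one]
    exact ⟨0, rfl⟩
  | succ k ih =>
    obtain ⟨P, hP, Q, hQ, C, hC, rfl⟩ := hk
    rw [Matrix.adjugate_mul_distrib, cm_adj (hZ.det P hP) (hZ.det Q hQ)]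
    exact DU_mul (ih hC) (cm_mem hQ hP)

lemma GrpSet.du {Z : Set (Matrix (Fin d) (Fin d) ℂ)} (hZ : GrpSet Z) : GrpSet (DU Z) where
  one := ⟨0, rfl⟩
  mul := fun _ hA _ hB => DU_mul hA hB
  adj := fun _ hA => DU_adj hZ hA
  det := fun A hA => by
    obtain ⟨k, hk⟩ := hA
    exact hZ.det A (DD_subset hZ k hk)

lemma conj_cm {A B C : Matrix (Fin d) (Fin d) ℂ} (hA : A.det = 1) (hB : B.det = 1)
    (hC : C.det = 1) :
    A * cm B C * A.adjugate = cm (A * B * A.adjugate) (A * C * A.adjugate) := by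
  have key : ∀ a b c : SpecialLinearGroup (Fin d) ℂ,
      a * (b * c * b⁻¹ * c⁻¹) * a⁻¹ = (a * b * a⁻¹) * (a * c * a⁻¹) * (a * b * a⁻¹)⁻¹ *
        (a * c * a⁻¹)⁻¹ := by
    intro a b c
    group
  exact congrArg Subtype.val (key ⟨A, hA⟩ ⟨B, hB⟩ ⟨C, hC⟩)

lemma DU_normal {Z : Set (Matrix (Fin d) (Fin d) ℂ)} (hZ : GrpSet Z)
    {A B : Matrix (Fin d) (Fin d) ℂ} (hA : A ∈ Z) (hB : B ∈ DU Z) :
    A * B * A.adjugate ∈ DU Z := by
  obtain ⟨k, hk⟩ := hB
  have hAA : A.adjugate * A = 1 := by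
    rw [Matrix.adjugate_mul, hZ.det A hA, one_smul]
  have hAA' : A * A.adjugate = 1 := by
    rw [Matrix.mul_adjugate, hZ.det A hA, one_smul]
  induction k generalizing B with
  | zero =>
    have : B = 1 := hk
    rw [this, mul_one, hAA']
    exact ⟨0, rfl⟩
  | succ k ih =>
    obtain ⟨P, hP, Q, hQ, C, hC, rfl⟩ := hk
    have h1 := ih hC
    have h2 : A * cm P Q * A.adjugate ∈ DU Z := by
      rw [conj_cm (hZ.det A hA) (hZ.det P hP) (hZ.det Q hQ)]
      exact cm_mem (hZ.mul _ (hZ.mul _ hA _ hP) _ (hZ.adj _ hA))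
        (hZ.mul _ (hZ.mul _ hA _ hQ) _ (hZ.adj _ hA))
    have h3 := DU_mul h2 h1
    have h4 : A * cm P Q * A.adjugate * (A * C * A.adjugate) =
        A * (cm P Q * C) * A.adjugate := by
      calc A * cm P Q * A.adjugate * (A * C * A.adjugate)
          = A * cm P Q * (A.adjugate * A) * (C * A.adjugate) := by simp only [mul_assoc]
        _ = A * (cm P Q * C) * A.adjugate := by rw [hAA]; simp only [mul_assoc, one_mul]
    rw [← h4]
    exact h3

/-- If the Zariski closed irreducible noncommutative group `Z` has no closed connected normal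
subgroups other than `1` and `Z`, the commutators generate a dense subgroup. -/
theorem comm_dense {Z : Set (Matrix (Fin d) (Fin d) ℂ)} (hG : GrpSet Z) (hI : Irr Z)
    (hcl : ZCl Z ⊆ Z)
    (hnc : ∃ A ∈ Z, ∃ B ∈ Z, A * B ≠ B * A)
    (hs : ∀ H : Set (Matrix (Fin d) (Fin d) ℂ), H ⊆ Z →
      (1 : Matrix (Fin d) (Fin d) ℂ) ∈ H →
      (∀ A ∈ H, ∀ B ∈ H, A * B ∈ H) →
      (∀ A ∈ H, A⁻¹ ∈ H) →
      (∀ A ∈ Z, ∀ B ∈ H, A * B * A⁻¹ ∈ H) →
      (∀ M : Matrix (Fin d) (Fin d) ℂ,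
        (∀ p : MvPolynomial (Fin d × Fin d) ℂ,
          (∀ B ∈ H, MvPolynomial.eval (fun ij : Fin d × Fin d => B ij.1 ij.2) p = 0) →
          MvPolynomial.eval (fun ij : Fin d × Fin d => M ij.1 ij.2) p = 0) → M ∈ H) →
      (∀ p q : MvPolynomial (Fin d × Fin d) ℂ,
        (∀ B ∈ H, MvPolynomial.eval (fun ij : Fin d × Fin d => B ij.1 ij.2) (p * q) = 0) →
        (∀ B ∈ H, MvPolynomial.eval (fun ij : Fin d × Fin d => B ij.1 ij.2) p = 0) ∨
        (∀ B ∈ H, MvPolynomial.eval (fun ij : Fin d × Fin d => B ij.1 ij.2) q = 0)) →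
      H = {1} ∨ H = Z) : ZCl (DU Z) = Z := by
  have hDG : GrpSet (DU Z) := hG.du
  have hHG : GrpSet (ZCl (DU Z)) := hDG.zcl
  have hsub : ZCl (DU Z) ⊆ Z :=
    (ZCl_mono (T := Z) (fun M hM => by
      obtain ⟨k, hk⟩ := hM
      exact DD_subset hG k hk)).trans hcl
  rcases hs (ZCl (DU Z)) hsub hHG.one hHG.mul
    (fun A hA => by rw [inv_eq_adj (hHG.det A hA)]; exact hHG.adj A hA)
    (fun A hA B hB => by
      rw [inv_eq_adj (hG.det A hA)]
      intro f hf hfS
      exact hB (fun M => f (A * M * A.adjugate))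
        (hf.comp fun i j => isPoly_matmul (K := fun _ => A.adjugate)
          (fun i j => isPoly_mul_left A i j) (fun i j => IsPoly.const (A.adjugate i j)) i j)
        (fun C hC => hfS _ (DU_normal hG hA hC)))
    (fun M hM => by
      intro f ⟨p, hp⟩ hfS
      rw [← hp]
      refine hM p fun B hB => ?_
      rw [hp]
      exact hB f ⟨p, hp⟩ hfS)
    (fun p q h => by
      exact irr_ZCl (irr_DU hG hI) (fun M => MvPolynomial.eval (fun ij : Fin d × Fin d => M ij.1 ij.2) p)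
        (fun M => MvPolynomial.eval (fun ij : Fin d × Fin d => M ij.1 ij.2) q)
        ⟨p, fun _ => rfl⟩ ⟨q, fun _ => rfl⟩ (fun M hM => by
          have := h M hM
          rwa [map_mul] at this)) with h | h
  · exfalso
    obtain ⟨A, hA, B, hB, hAB⟩ := hnc
    apply hAB
    have h1 : cm A B ∈ ZCl (DU Z) := subset_ZCl _ (cm_mem hA hB)
    rw [h] at h1
    have h2 : cm A B = 1 := h1
    have hAA : A.adjugate * A = 1 := by
      rw [Matrix.adjugate_mul, hG.det A hA, one_smul]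
    have hBB : B.adjugate * B = 1 := by
      rw [Matrix.adjugate_mul, hG.det B hB, one_smul]
    have h3 : cm A B * (B * A) = A * B := by
      unfold cm
      calc A * B * A.adjugate * B.adjugate * (B * A)
          = A * B * A.adjugate * (B.adjugate * B) * A := by simp only [mul_assoc]
        _ = A * B * (A.adjugate * A) := by rw [hBB]; simp only [mul_assoc, one_mul]
        _ = A * B := by rw [hAA, mul_one]
    rw [h2, one_mul] at h3
    exact h3.symm
  · exact h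

lemma ZCl_idem (S : Set (Matrix (Fin d) (Fin d) ℂ)) : ZCl (ZCl S) ⊆ ZCl S :=
  fun _ hM f hf hS => hM f hf (fun _ hB => hB f hf hS)

end Pool.Agent.Helper69.DF
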